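import Mathlib
set_option autoImplicit false

/-!
Moebius polynomials localised at `e ^ u`: `D u t = ∑ μ(n) exp (-(log n - u) ^ 2) n ^ (-i t)`.
-/

open Complex Filter Topology MeasureTheory Set

namespace Pool.Agent.R305.MV

noncomputable section

/-- the terms -/
def dt (u t : ℝ) (n : ℕ) : ℂ := (ArithmeticFunction.moebius n : ℂ) *
  cexp (-(((Real.log n - u : ℝ) : ℂ)) ^ 2 - ((t * Real.log n : ℝ) : ℂ) * I)

/-- the smoothed Moebius polynomial -/
def D (u t : ℝ) : ℂ := ∑' n : ℕ, dt u t n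

/-- the zeta function on the half-line -/
def Z (a : ℝ) : ℝ := ∑' n : ℕ, 1 / (n : ℝ) ^ a

lemma summable_Z {a : ℝ} (ha : 1 < a) : Summable fun n : ℕ => 1 / (n : ℝ) ^ a :=
  Real.summable_one_div_nat_rpow.mpr ha

lemma Z_nonneg (a : ℝ) : 0 ≤ Z a := tsum_nonneg fun n => by positivity

lemma norm_mu_le (n : ℕ) : ‖(ArithmeticFunction.moebius n : ℂ)‖ ≤ 1 := by
  rw [Complex.norm_intCast]
  exact_mod_cast ArithmeticFunction.abs_moebius_le_one

lemma norm_dt (u t : ℝ) (n : ℕ) : ‖dt u t n‖ = ‖(ArithmeticFunction.moebius n : ℂ)‖ *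
    Real.exp (-(Real.log n - u) ^ 2) := by
  unfold dt
  rw [norm_mul, Complex.norm_exp]
  congr 2
  have : (-(((Real.log n - u : ℝ) : ℂ)) ^ 2 - ((t * Real.log n : ℝ) : ℂ) * I).re =
      -(Real.log n - u) ^ 2 := by
    rw [← Complex.ofReal_pow, ← Complex.ofReal_neg]
    simp only [Complex.sub_re, Complex.ofReal_re, Complex.mul_re, Complex.I_re, Complex.ofReal_im,
      Complex.I_im]
    ring
  exact this

lemma norm_dt_le (u t : ℝ) (n : ℕ) : ‖dt u t n‖ ≤ Real.exp (-(Real.log n - u) ^ 2) := by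
  rw [norm_dt]
  exact mul_le_of_le_one_left (Real.exp_pos _).le (norm_mu_le n)

lemma exp_sq_le (a u : ℝ) {n : ℕ} (hn : 1 ≤ n) : Real.exp (-(Real.log n - u) ^ 2) ≤
    Real.exp (a ^ 2 / 4 + a * u) * (1 / (n : ℝ) ^ a) := by
  have hn0 : (0 : ℝ) < n := by exact_mod_cast hn
  rw [one_div, ← Real.rpow_neg hn0.le, Real.rpow_def_of_pos hn0, ← Real.exp_add]
  apply Real.exp_le_exp.2
  nlinarith [sq_nonneg ((Real.log n - u) - a / 2)]

lemma dt_zero (u t : ℝ) : dt u t 0 = 0 := by simp [dt]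

lemma norm_dt_le' (a u t : ℝ) (n : ℕ) : ‖dt u t n‖ ≤
    Real.exp (a ^ 2 / 4 + a * u) * (1 / (n : ℝ) ^ a) := by
  rcases Nat.eq_zero_or_pos n with rfl | hn
  · rw [dt_zero, norm_zero]; positivity
  · exact (norm_dt_le u t n).trans (exp_sq_le a u hn)

lemma summable_dt (u t : ℝ) : Summable fun n => ‖dt u t n‖ :=
  Summable.of_nonneg_of_le (fun _ => norm_nonneg _) (norm_dt_le' 2 u t)
    ((summable_Z (by norm_num : (1:ℝ) < 2)).mul_left _)

lemma norm_D_le {a : ℝ} (ha : 1 < a) (u t : ℝ) :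
    ‖D u t‖ ≤ Real.exp (a ^ 2 / 4 + a * u) * Z a := by
  unfold D Z
  rw [← tsum_mul_left]
  refine tsum_of_norm_bounded ((summable_Z ha).mul_left _).hasSum fun n => norm_dt_le' a u t n

lemma norm_D_le_neg {u : ℝ} (hu : u ≤ 0) (t : ℝ) :
    ‖D u t‖ ≤ Real.exp 1 * Z 2 * Real.exp (-u ^ 2) := by
  have h1 : ∀ n, ‖dt u t n‖ ≤ (Real.exp 1 * Real.exp (-u ^ 2)) * (1 / (n : ℝ) ^ (2 : ℝ)) := by
    intro n
    rcases Nat.eq_zero_or_pos n with rfl | hn
    · rw [dt_zero, norm_zero]; positivity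
    · refine (norm_dt_le u t n).trans ?_
      have hn0 : (0 : ℝ) < n := by exact_mod_cast hn
      have hl : 0 ≤ Real.log n := Real.log_nonneg (by exact_mod_cast hn)
      rw [one_div, ← Real.rpow_neg hn0.le, Real.rpow_def_of_pos hn0, ← Real.exp_add,
        ← Real.exp_add]
      apply Real.exp_le_exp.2
      nlinarith [sq_nonneg (Real.log n - 1), mul_nonneg hl (neg_nonneg.2 hu)]
  have h2 : ‖D u t‖ ≤ ∑' n : ℕ, (Real.exp 1 * Real.exp (-u ^ 2)) * (1 / (n : ℝ) ^ (2 : ℝ)) :=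
    tsum_of_norm_bounded ((summable_Z (by norm_num : (1:ℝ) < 2)).mul_left _).hasSum h1
  rw [tsum_mul_left] at h2
  unfold Z
  linarith

/-- terms of the entire function -/
def th (n : ℕ) (z : ℂ) : ℂ := (ArithmeticFunction.moebius n : ℂ) *
  cexp (-((Real.log n : ℂ) - z) ^ 2)

/-- the entire function -/
def Th (z : ℂ) : ℂ := ∑' n : ℕ, th n z

lemma dt_eq (u t : ℝ) (n : ℕ) : dt u t n =
    cexp (-(t * u : ℝ) * I - ((t ^ 2 / 4 : ℝ) : ℂ)) * th n (u - (t / 2 : ℝ) * I) := by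
  unfold dt th
  rw [← mul_assoc, mul_comm (cexp _) ((ArithmeticFunction.moebius n : ℂ)), mul_assoc,
    ← Complex.exp_add]
  congr 2
  push_cast
  linear_combination ((t:ℂ) ^ 2 / 4) * Complex.I_sq

lemma D_eq (u t : ℝ) : D u t =
    cexp (-(t * u : ℝ) * I - ((t ^ 2 / 4 : ℝ) : ℂ)) * Th (u - (t / 2 : ℝ) * I) := by
  unfold D Th
  rw [← tsum_mul_left]
  exact tsum_congr fun n => dt_eq u t n

lemma norm_th_le {R : ℝ} (n : ℕ) {z : ℂ} (hz : ‖z‖ < R) :
    ‖th n z‖ ≤ Real.exp (R ^ 2 + 1 + 2 * R) * (1 / (n : ℝ) ^ (2 : ℝ)) := by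
  rcases Nat.eq_zero_or_pos n with rfl | hn
  · simp [th]
  have hn0 : (0 : ℝ) < n := by exact_mod_cast hn
  have hR : 0 < R := lt_of_le_of_lt (norm_nonneg _) hz
  have h1 : ‖th n z‖ ≤ Real.exp (-(Real.log n - z.re) ^ 2 + z.im ^ 2) := by
    unfold th
    rw [norm_mul, Complex.norm_exp]
    refine (mul_le_of_le_one_left (Real.exp_pos _).le (norm_mu_le n)).trans ?_
    apply Real.exp_le_exp.2
    apply le_of_eq
    simp only [sq, Complex.neg_re, Complex.mul_re, Complex.sub_re, Complex.ofReal_re,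
      Complex.sub_im, Complex.ofReal_im]
    ring
  refine h1.trans ?_
  rw [one_div, ← Real.rpow_neg hn0.le, Real.rpow_def_of_pos hn0, ← Real.exp_add]
  apply Real.exp_le_exp.2
  have h2 := (Complex.abs_re_le_norm z).trans hz.le
  have h3 := (Complex.abs_im_le_norm z).trans hz.le
  have h4 : z.im ^ 2 ≤ R ^ 2 := by
    rw [← sq_abs z.im]
    exact pow_le_pow_left₀ (abs_nonneg _) h3 2
  have h5 := (abs_le.1 h2).2
  nlinarith [sq_nonneg (Real.log n - z.re - 1)]

lemma differentiable_th (n : ℕ) : Differentiable ℂ (th n) := by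
  unfold th
  fun_prop

lemma differentiable_Th : Differentiable ℂ Th := by
  intro z
  have h := differentiableOn_tsum_of_summable_norm (F := th) (U := Metric.ball (0 : ℂ) (‖z‖ + 1))
    (u := fun n : ℕ => Real.exp ((‖z‖ + 1) ^ 2 + 1 + 2 * (‖z‖ + 1)) * (1 / (n : ℝ) ^ (2 : ℝ)))
    ((summable_Z (by norm_num : (1:ℝ) < 2)).mul_left _)
    (fun n => (differentiable_th n).differentiableOn) Metric.isOpen_ball
    (fun n w hw => norm_th_le n (by rwa [Metric.mem_ball, dist_zero_right] at hw))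
  have hz : z ∈ Metric.ball (0 : ℂ) (‖z‖ + 1) := by
    rw [Metric.mem_ball, dist_zero_right]; linarith
  exact (h z hz).differentiableAt (Metric.isOpen_ball.mem_nhds hz)

lemma continuous_D : Continuous fun p : ℝ × ℝ => D p.1 p.2 := by
  have h : (fun p : ℝ × ℝ => D p.1 p.2) = fun p : ℝ × ℝ =>
    cexp (-(p.2 * p.1 : ℝ) * I - ((p.2 ^ 2 / 4 : ℝ) : ℂ)) * Th (p.1 - (p.2 / 2 : ℝ) * I) := by
    funext p
    exact D_eq p.1 p.2
  rw [h]
  have hc := differentiable_Th.continuous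
  refine Continuous.mul (by fun_prop) (hc.comp (by fun_prop))

lemma continuous_D_left (t : ℝ) : Continuous fun u : ℝ => D u t := by
  have h : (fun u : ℝ => D u t) = fun u : ℝ =>
    cexp (-(t * u : ℝ) * I - ((t ^ 2 / 4 : ℝ) : ℂ)) * Th (u - (t / 2 : ℝ) * I) := by
    funext u
    exact D_eq u t
  rw [h]
  have hc := differentiable_Th.continuous
  refine Continuous.mul (by fun_prop) (hc.comp (by fun_prop))

lemma continuous_D_right (u : ℝ) : Continuous fun t : ℝ => D u t := by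
  have h : (fun t : ℝ => D u t) = fun t : ℝ =>
    cexp (-(t * u : ℝ) * I - ((t ^ 2 / 4 : ℝ) : ℂ)) * Th (u - (t / 2 : ℝ) * I) := by
    funext t
    exact D_eq u t
  rw [h]
  have hc := differentiable_Th.continuous
  refine Continuous.mul (by fun_prop) (hc.comp (by fun_prop))

lemma norm_D_neg (u t : ℝ) : ‖D u (-t)‖ = ‖D u t‖ := by
  have h : D u (-t) = (starRingEnd ℂ) (D u t) := by
    unfold D
    rw [Complex.conj_tsum]
    refine tsum_congr fun n => ?_
    unfold dt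
    rw [map_mul, ← Complex.exp_conj]
    congr 1
    · simp
    · congr 1
      simp only [map_sub, map_neg, map_pow, map_mul, Complex.conj_ofReal, Complex.conj_I]
      push_cast
      ring
  rw [h, Complex.norm_conj]

end

end Pool.Agent.R305.MV
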