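import Pool.Agent.R305.MV.A
import Pool.Agent.H31R2.DH.BackZeta
set_option autoImplicit false
set_option maxHeartbeats 1000000

/-!
Integral formulas that relate `D` and `1 / zeta`.
-/

open Complex Filter Topology MeasureTheory Set

namespace Pool.Agent.R305.MV

noncomputable section

lemma zeta_inv {s : ℂ} (hs : 1 < s.re) :
    HasSum (fun n : ℕ => (ArithmeticFunction.moebius n : ℂ) * cexp (-(s * (Real.log n : ℝ))))
      (riemannZeta s)⁻¹ := by
  have h0 : LSeriesSummable (fun n => (ArithmeticFunction.moebius n : ℂ)) s :=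
    ArithmeticFunction.LSeriesSummable_moebius_iff.2 hs
  have h1 : riemannZeta s * LSeries (fun n => (ArithmeticFunction.moebius n : ℂ)) s = 1 := by
    rw [← LSeries_one_eq_riemannZeta hs]
    exact LSeries_one_mul_Lseries_moebius hs
  have h2 : (riemannZeta s)⁻¹ = LSeries (fun n => (ArithmeticFunction.moebius n : ℂ)) s := by
    have h3 : riemannZeta s ≠ 0 := left_ne_zero_of_mul_eq_one h1
    field_simp
    exact h1.symm
  rw [h2]
  have h3 := h0.hasSum
  convert! h3 using 1
  funext n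
  rcases Nat.eq_zero_or_pos n with rfl | hn
  · simp [LSeries.term]
  · rw [LSeries.term_of_ne_zero hn.ne', div_eq_mul_inv, ← Complex.cpow_neg,
      Complex.cpow_def_of_ne_zero (by exact_mod_cast hn.ne'), Complex.natCast_log]
    congr 2
    ring

lemma sqrt1 : ((Real.pi : ℂ) / -(-1)) ^ (1 / 2 : ℂ) = ((Real.sqrt Real.pi : ℝ) : ℂ) := by
  rw [neg_neg, div_one, Real.sqrt_eq_rpow, Complex.ofReal_cpow Real.pi_pos.le]
  norm_num

lemma sqrt2 : ((Real.pi : ℂ) / -(-(1 / 4))) ^ (1 / 2 : ℂ) = ((2 * Real.sqrt Real.pi : ℝ) : ℂ) := by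
  have h1 : (Real.pi : ℂ) / -(-(1 / 4)) = ((4 * Real.pi : ℝ) : ℂ) := by
    push_cast; ring
  have h2 : (2 * Real.sqrt Real.pi : ℝ) = (4 * Real.pi) ^ (1 / 2 : ℝ) := by
    rw [← Real.sqrt_eq_rpow, Real.sqrt_mul (by norm_num), show (4:ℝ) = 2 ^ 2 by norm_num,
      Real.sqrt_sq (by norm_num)]
  rw [h1, h2, Complex.ofReal_cpow (by positivity)]
  norm_num

lemma tail {f : ℝ → ℂ} (hf : Integrable f) {g : ℝ → ℝ} (hg : Integrable g) (hg0 : ∀ v, 0 ≤ g v)
    {V : ℝ} (hV : 0 ≤ V) (h : ∀ v, V ≤ |v| → ‖f v‖ ≤ g v) :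
    ‖(∫ v, f v) - ∫ v in (-V)..V, f v‖ ≤ ∫ v, g v := by
  rw [intervalIntegral.integral_of_le (by linarith), ← integral_add_compl measurableSet_Ioc hf,
    add_sub_cancel_left]
  refine (norm_integral_le_of_norm_le hg.integrableOn ?_).trans
    (setIntegral_le_integral hg (Eventually.of_forall hg0))
  refine (ae_restrict_mem measurableSet_Ioc.compl).mono fun v hv => h v ?_
  rw [Set.mem_compl_iff, Set.mem_Ioc, not_and_or, not_lt, not_le] at hv
  rcases hv with hv | hv
  · rw [abs_of_nonpos (by linarith)]; linarith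
  · exact hv.le.trans (le_abs_self v)

/-! ### The integral over `u` -/

lemma integral_dt (w : ℂ) (t : ℝ) (n : ℕ) : ∫ u : ℝ, dt u t n * cexp (-(w * u)) =
    (Real.sqrt Real.pi : ℝ) * cexp (w ^ 2 / 4) *
      ((ArithmeticFunction.moebius n : ℂ) * cexp (-((w + t * I) * (Real.log n : ℝ)))) := by
  have h1 : ∀ u : ℝ, dt u t n * cexp (-(w * u)) = (ArithmeticFunction.moebius n : ℂ) *
      cexp ((-1) * (u : ℂ) ^ 2 + (2 * (Real.log n : ℝ) - w) * u +
        (-((Real.log n : ℝ) : ℂ) ^ 2 - t * (Real.log n : ℝ) * I)) := by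
    intro u
    unfold dt
    rw [mul_assoc, ← Complex.exp_add]
    congr 2
    push_cast
    ring
  simp_rw [h1]
  rw [integral_const_mul, integral_cexp_quadratic (by norm_num), sqrt1]
  have h2 : cexp ((-((Real.log n : ℝ) : ℂ) ^ 2 - t * (Real.log n : ℝ) * I) -
      (2 * (Real.log n : ℝ) - w) ^ 2 / (4 * (-1))) =
      cexp (w ^ 2 / 4) * cexp (-((w + t * I) * (Real.log n : ℝ))) := by
    rw [← Complex.exp_add]
    congr 1
    ring
  rw [h2]
  ring

lemma gauss_int (x : ℝ) : Integrable fun v : ℝ => Real.exp (x * v - v ^ 2) := by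
  have h := (integrable_cexp_quadratic' (b := -1) (by norm_num) (x : ℂ) 0).norm
  refine h.congr (Eventually.of_forall fun v => ?_)
  simp only
  rw [Complex.norm_exp]
  congr 1
  rw [show (-1 * (v : ℂ) ^ 2 + (x : ℂ) * v + 0) = ((x * v - v ^ 2 : ℝ) : ℂ) by push_cast; ring,
    Complex.ofReal_re]

lemma norm_exp_mul (w : ℂ) (u : ℝ) : ‖cexp (-(w * u))‖ = Real.exp (-(w.re * u)) := by
  rw [Complex.norm_exp]
  congr 1
  simp

lemma norm_F_le (w : ℂ) (t u : ℝ) (n : ℕ) : ‖dt u t n * cexp (-(w * u))‖ ≤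
    (1 / (n : ℝ) ^ w.re) * Real.exp (w.re * (Real.log n - u) - (Real.log n - u) ^ 2) := by
  rcases Nat.eq_zero_or_pos n with rfl | hn
  · rw [dt_zero, zero_mul, norm_zero]; positivity
  have hn0 : (0 : ℝ) < n := by exact_mod_cast hn
  rw [norm_mul, norm_exp_mul]
  calc _ ≤ Real.exp (-(Real.log n - u) ^ 2) * Real.exp (-(w.re * u)) :=
        mul_le_mul_of_nonneg_right (norm_dt_le u t n) (Real.exp_pos _).le
    _ = _ := by
        rw [one_div, ← Real.rpow_neg hn0.le, Real.rpow_def_of_pos hn0, ← Real.exp_add,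
          ← Real.exp_add]
        congr 1
        ring

lemma continuous_F (w : ℂ) (t : ℝ) (n : ℕ) : Continuous fun u : ℝ => dt u t n * cexp (-(w * u)) := by
  unfold dt
  fun_prop

lemma integrable_F (w : ℂ) (t : ℝ) (n : ℕ) :
    Integrable fun u : ℝ => dt u t n * cexp (-(w * u)) := by
  refine Integrable.mono' (g := fun u => (1 / (n : ℝ) ^ w.re) *
    Real.exp (w.re * (Real.log n - u) - (Real.log n - u) ^ 2)) ?_
    (continuous_F w t n).aestronglyMeasurable (Eventually.of_forall fun u => norm_F_le w t u n)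
  exact ((gauss_int w.re).comp_sub_left (Real.log n)).const_mul _

lemma integral_norm_F_le (w : ℂ) (t : ℝ) (n : ℕ) :
    ∫ u : ℝ, ‖dt u t n * cexp (-(w * u))‖ ≤
      (1 / (n : ℝ) ^ w.re) * ∫ v : ℝ, Real.exp (w.re * v - v ^ 2) := by
  have h1 := integral_mono (integrable_F w t n).norm
    (((gauss_int w.re).comp_sub_left (Real.log n)).const_mul (1 / (n : ℝ) ^ w.re))
    (fun u => norm_F_le w t u n)
  refine h1.trans (le_of_eq ?_)
  rw [integral_const_mul]
  congr 1
  exact integral_sub_left_eq_self (fun v => Real.exp (w.re * v - v ^ 2)) volume (Real.log n)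

/-- the Mellin transform of `D` -/
theorem mellin {w : ℂ} (hw : 1 < w.re) (t : ℝ) : ∫ u : ℝ, D u t * cexp (-(w * u)) =
    (Real.sqrt Real.pi : ℝ) * cexp (w ^ 2 / 4) * (riemannZeta (w + t * I))⁻¹ := by
  have hs : Summable fun n => ∫ u : ℝ, ‖dt u t n * cexp (-(w * u))‖ :=
    Summable.of_nonneg_of_le (fun n => integral_nonneg fun u => norm_nonneg _)
      (integral_norm_F_le w t) ((summable_Z hw).mul_right _)
  have h1 := hasSum_integral_of_summable_integral_norm (fun n => integrable_F w t n) hs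
  have h2 : (fun u : ℝ => ∑' n, dt u t n * cexp (-(w * u))) = fun u : ℝ => D u t * cexp (-(w * u)) := by
    funext u
    rw [tsum_mul_right]
    rfl
  rw [h2] at h1
  have h3 : HasSum (fun n : ℕ => (Real.sqrt Real.pi : ℝ) * cexp (w ^ 2 / 4) *
      ((ArithmeticFunction.moebius n : ℂ) * cexp (-((w + t * I) * (Real.log n : ℝ)))))
      ((Real.sqrt Real.pi : ℝ) * cexp (w ^ 2 / 4) * (riemannZeta (w + t * I))⁻¹) :=
    (zeta_inv (by simpa using hw)).mul_left _
  refine h1.unique ?_
  convert! h3 using 1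
  funext n
  exact integral_dt w t n

lemma int_exp_abs (c : ℝ) (hc : 0 < c) : Integrable fun u : ℝ => Real.exp (-(c * |u|)) := by
  have h1 : IntegrableOn (fun u : ℝ => Real.exp (-(c * |u|))) (Iic 0) := by
    refine (integrableOn_exp_mul_Iic hc 0).congr_fun (fun u hu => ?_) measurableSet_Iic
    rw [Set.mem_Iic] at hu
    simp only
    rw [abs_of_nonpos hu]
    congr 1
    ring
  have h2 : IntegrableOn (fun u : ℝ => Real.exp (-(c * |u|))) (Ioi 0) := by
    refine (integrableOn_exp_mul_Ioi (neg_lt_zero.2 hc) 0).congr_fun (fun u hu => ?_)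
      measurableSet_Ioi
    rw [Set.mem_Ioi] at hu
    simp only
    rw [abs_of_pos hu]
    congr 1
    ring
  have h3 := h1.union h2
  rwa [Iic_union_Ioi, integrableOn_univ] at h3

/-- the bound for the integrand in the region `4 ≤ Re w ≤ 6` -/
lemma norm_int_le : ∃ C : ℝ, 0 < C ∧ ∀ w : ℂ, 4 ≤ w.re → w.re ≤ 6 → ∀ t u : ℝ,
    ‖D u t * cexp (-(w * u))‖ ≤ C * Real.exp (-|u|) := by
  refine ⟨Real.exp 14 * (Z 2 + 1), by have := Z_nonneg 2; positivity, fun w h4 h6 t u => ?_⟩
  have hZ := Z_nonneg 2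
  rw [norm_mul, norm_exp_mul]
  rcases le_total u 0 with hu | hu
  · rw [abs_of_nonpos hu]
    calc _ ≤ Real.exp 1 * Z 2 * Real.exp (-u ^ 2) * Real.exp (-(w.re * u)) :=
          mul_le_mul_of_nonneg_right (norm_D_le_neg hu t) (Real.exp_pos _).le
      _ = Z 2 * Real.exp (1 + -u ^ 2 + -(w.re * u)) := by
          rw [Real.exp_add, Real.exp_add]; ring
      _ ≤ Z 2 * Real.exp (14 + - -u) := by
          apply mul_le_mul_of_nonneg_left _ hZ
          apply Real.exp_le_exp.2
          nlinarith [mul_nonneg (sub_nonneg.2 h6) (neg_nonneg.2 hu), sq_nonneg (u + 7 / 2)]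
      _ ≤ _ := by
          rw [Real.exp_add]
          have : 0 < Real.exp 14 * Real.exp (- -u) := by positivity
          nlinarith
  · rw [abs_of_nonneg hu]
    calc _ ≤ Real.exp (2 ^ 2 / 4 + 2 * u) * Z 2 * Real.exp (-(w.re * u)) :=
          mul_le_mul_of_nonneg_right (norm_D_le (by norm_num) u t) (Real.exp_pos _).le
      _ = Z 2 * Real.exp (2 ^ 2 / 4 + 2 * u + -(w.re * u)) := by
          rw [Real.exp_add (2 ^ 2 / 4 + 2 * u)]; ring
      _ ≤ Z 2 * Real.exp (14 + -u) := by
          apply mul_le_mul_of_nonneg_left _ hZ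
          apply Real.exp_le_exp.2
          nlinarith [mul_nonneg (sub_nonneg.2 h4) hu]
      _ ≤ _ := by
          rw [Real.exp_add]
          have : 0 < Real.exp 14 * Real.exp (-u) := by positivity
          nlinarith

/-- truncation of the Mellin transform -/
theorem mellin_trunc : ∃ C : ℝ, 0 < C ∧ ∀ w : ℂ, 4 ≤ w.re → w.re ≤ 6 → ∀ t U : ℝ, 0 ≤ U →
    ‖(Real.sqrt Real.pi : ℝ) * cexp (w ^ 2 / 4) * (riemannZeta (w + t * I))⁻¹ -
      ∫ u in (-U)..U, D u t * cexp (-(w * u))‖ ≤ C * Real.exp (-(U / 2)) := by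
  obtain ⟨C, hC, hb⟩ := norm_int_le
  refine ⟨C * ((∫ u : ℝ, Real.exp (-(1 / 2 * |u|))) + 1), by positivity, fun w h4 h6 t U hU => ?_⟩
  rw [← mellin (by linarith : 1 < w.re) t]
  have hcont : Continuous fun u : ℝ => D u t * cexp (-(w * u)) := by
    exact (continuous_D_left t).mul (by fun_prop)
  have h1i : Integrable fun u : ℝ => C * Real.exp (-|u|) := by
    have h := (int_exp_abs 1 one_pos).const_mul C
    have e : (fun u : ℝ => C * Real.exp (-(1 * |u|))) = fun u : ℝ => C * Real.exp (-|u|) := by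
      funext u
      congr 2
      ring
    rwa [e] at h
  have hint : Integrable fun u : ℝ => D u t * cexp (-(w * u)) :=
    Integrable.mono' h1i hcont.aestronglyMeasurable
      (Eventually.of_forall fun u => hb w h4 h6 t u)
  have hg : ∀ v : ℝ, U ≤ |v| → ‖D v t * cexp (-(w * v))‖ ≤
      (C * Real.exp (-(U / 2))) * Real.exp (-(1 / 2 * |v|)) := by
    intro v hv
    refine (hb w h4 h6 t v).trans ?_
    rw [mul_assoc, ← Real.exp_add]
    apply mul_le_mul_of_nonneg_left _ hC.le
    apply Real.exp_le_exp.2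
    linarith
  have hgi : Integrable fun u : ℝ => (C * Real.exp (-(U / 2))) * Real.exp (-(1 / 2 * |u|)) :=
    (int_exp_abs (1 / 2) (by norm_num)).const_mul _
  have hg0 : ∀ v : ℝ, 0 ≤ (C * Real.exp (-(U / 2))) * Real.exp (-(1 / 2 * |v|)) := by
    intro v
    have := Real.exp_pos (-(U / 2))
    have := Real.exp_pos (-(1 / 2 * |v|))
    positivity
  have h1 := tail hint hgi hg0 hU hg
  refine h1.trans ?_
  rw [integral_const_mul]
  have h2 : 0 < C * Real.exp (-(U / 2)) := by positivity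
  nlinarith

end

end Pool.Agent.R305.MV
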