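import Pool.Agent.R305.MV.B
set_option autoImplicit false
set_option maxHeartbeats 1000000

/-!
A zero of zeta forces large values of the Moebius polynomials.
-/

open Complex Filter Topology MeasureTheory Set

namespace Pool.Agent.R305.MV

noncomputable section

/-- truncated Mellin transform -/
def G (U t : ℝ) (w : ℂ) : ℂ := ∫ u in (-U)..U, D u t * cexp (-(w * u))

lemma differentiable_G (U t : ℝ) : Differentiable ℂ (G U t) := by
  intro w₀
  have hD := continuous_D_left t
  have key := intervalIntegral.hasDerivAt_integral_of_dominated_loc_of_deriv_le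
    (μ := volume) (a := -U) (b := U)
    (F := fun (w : ℂ) (u : ℝ) => D u t * cexp (-(w * u)))
    (F' := fun (w : ℂ) (u : ℝ) => D u t * (cexp (-(w * u)) * (-(u : ℂ))))
    (x₀ := w₀) (s := Metric.ball w₀ 1)
    (bound := fun u => ‖D u t‖ * (Real.exp ((|w₀.re| + 1) * |u|) * |u|))
    (Metric.ball_mem_nhds w₀ one_pos)
    (Eventually.of_forall fun w => (hD.mul (by fun_prop)).aestronglyMeasurable)
    ((hD.mul (by fun_prop)).intervalIntegrable _ _)
    ((hD.mul (by fun_prop)).aestronglyMeasurable)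
    (Eventually.of_forall fun u _ w hw => ?_)
    ((hD.norm.mul (by fun_prop)).intervalIntegrable _ _)
    (Eventually.of_forall fun u _ w _ => ?_)
  · exact key.2.differentiableAt
  · rw [norm_mul, norm_mul, norm_exp_mul, norm_neg, Complex.norm_real, Real.norm_eq_abs]
    apply mul_le_mul_of_nonneg_left _ (norm_nonneg _)
    apply mul_le_mul_of_nonneg_right _ (abs_nonneg _)
    apply Real.exp_le_exp.2
    have h1 : |w.re| ≤ |w₀.re| + 1 := by
      rw [Metric.mem_ball, dist_eq_norm] at hw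
      have h2 := (Complex.abs_re_le_norm (w - w₀)).trans hw.le
      rw [Complex.sub_re] at h2
      have h3 := abs_sub_abs_le_abs_sub w.re w₀.re
      linarith
    calc -(w.re * u) ≤ |w.re * u| := neg_le_abs _
      _ = |w.re| * |u| := abs_mul _ _
      _ ≤ _ := mul_le_mul_of_nonneg_right h1 (abs_nonneg _)
  · refine HasDerivAt.const_mul _ ?_
    have h1 : HasDerivAt (fun w : ℂ => -(w * u)) (-(u : ℂ)) w :=
      (hasDerivAt_mul_const (u : ℂ) (x := w)).fun_neg
    exact h1.cexp

lemma norm_G_le {U t σ P : ℝ} (hU : 0 ≤ U) (hP : 1 ≤ P)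
    (h : ∀ u, 0 ≤ u → u ≤ U → ‖D u t‖ ≤ P * Real.exp (σ * u)) {w : ℂ} (hw : σ ≤ w.re)
    (hw2 : w.re ≤ 10) : ‖G U t w‖ ≤ Real.exp 26 * (Z 2 + 1) * P * (2 * U) := by
  have hZ := Z_nonneg 2
  have h1 := intervalIntegral.norm_integral_le_of_norm_le_const (a := -U) (b := U)
    (f := fun u : ℝ => D u t * cexp (-(w * u))) (C := Real.exp 26 * (Z 2 + 1) * P) (fun u hu => by
    rw [Set.uIoc_of_le (by linarith)] at hu
    have he : 1 ≤ Real.exp 26 := Real.one_le_exp (by norm_num)
    rw [norm_mul, norm_exp_mul]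
    rcases le_total u 0 with hu0 | hu0
    · calc _ ≤ Real.exp 1 * Z 2 * Real.exp (-u ^ 2) * Real.exp (-(w.re * u)) :=
            mul_le_mul_of_nonneg_right (norm_D_le_neg hu0 t) (Real.exp_pos _).le
        _ = Z 2 * Real.exp (1 + -u ^ 2 + -(w.re * u)) := by
            rw [Real.exp_add, Real.exp_add]; ring
        _ ≤ Z 2 * Real.exp 26 := by
            apply mul_le_mul_of_nonneg_left _ hZ
            apply Real.exp_le_exp.2
            nlinarith [mul_nonneg (sub_nonneg.2 hw2) (neg_nonneg.2 hu0), sq_nonneg (u + 5)]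
        _ ≤ (Z 2 + 1) * Real.exp 26 * P := by
            have : 0 ≤ Z 2 * Real.exp 26 := by positivity
            nlinarith [Real.exp_pos 26]
        _ = _ := by ring
    · calc _ ≤ P * Real.exp (σ * u) * Real.exp (-(w.re * u)) :=
            mul_le_mul_of_nonneg_right (h u hu0 hu.2) (Real.exp_pos _).le
        _ = P * Real.exp (σ * u + -(w.re * u)) := by rw [Real.exp_add]; ring
        _ ≤ P * 1 := by
            apply mul_le_mul_of_nonneg_left _ (by linarith)
            rw [← Real.exp_zero]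
            apply Real.exp_le_exp.2
            nlinarith
        _ ≤ _ := by
            have h3 : 1 ≤ Real.exp 26 * (Z 2 + 1) := by nlinarith
            nlinarith)
  unfold G
  refine h1.trans (le_of_eq ?_)
  congr 1
  rw [abs_of_nonneg (by linarith)]
  ring

lemma aux1 : (5 : ℝ) ≤ Real.exp 2 := by
  have := Real.exp_one_gt_d9
  have h6 : Real.exp 2 = Real.exp 1 * Real.exp 1 := by rw [← Real.exp_add]; norm_num
  nlinarith

lemma aux2 {x : ℝ} (h0 : 0 ≤ x) (h : x ≤ 12) : x ^ 2 / 4 ≤ 36 := by nlinarith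

lemma aux3 {T E P A L : ℝ} (hE : 0 ≤ E) (hP : 0 ≤ P) (hA : 0 ≤ A) (hT : 0 ≤ T) (hLT : L ≤ T) :
    (12 * T) * (E * P * (2 * (A * L))) ≤ 12 * (E * (2 * A)) * (P * (T * T)) := by
  have h4 : 0 ≤ 12 * (E * (2 * A)) * (P * T) := by positivity
  have := mul_le_mul_of_nonneg_left hLT h4
  calc _ = 12 * (E * (2 * A)) * (P * T) * L := by ring
    _ ≤ 12 * (E * (2 * A)) * (P * T) * T := this
    _ = _ := by ring

lemma aux5 {a b : ℝ} (ha : 17 / 10 ≤ a) (hb : 3 / 4 ≤ b) : 1 < a * b := by nlinarith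

lemma aux7 {δ s r : ℝ} (hδ : 0 < δ) (hs : 0 < s) (h2 : s ≤ 9 / 2) (h3 : r = s - δ / 2) :
    δ / 9 ≤ 1 - r / s := by
  rw [le_sub_iff_add_le, ← le_sub_iff_add_le', div_le_iff₀ hs, h3]
  nlinarith

lemma aux8 {K κ L δ B : ℝ} (hδ : 0 < δ) (h : κ * L ≤ K) (h5 : κ * δ / 9 = B + 3) :
    K * (-(δ / 9)) ≤ L * (-(B + 3)) := by
  have := mul_le_mul_of_nonneg_right h (by positivity : 0 ≤ δ / 9)
  rw [← h5]
  linarith

/-- **A zero forces large values.** -/
theorem detect {δ B : ℝ} (hδ : 0 < δ) (hδ1 : δ ≤ 1 / 2) (hB : 0 ≤ B) :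
    ∃ A : ℝ, 0 < A ∧ ∃ T0 : ℝ, ∀ T : ℝ, T0 ≤ T → ∀ σ : ℝ, 1 / 2 ≤ σ → ∀ ρ : ℂ,
      riemannZeta ρ = 0 → σ + δ ≤ ρ.re → 6 ≤ ρ.im → ρ.im ≤ T + 1 → ∀ t : ℝ, |t - ρ.im| ≤ 1 →
      ∃ u : ℝ, 0 ≤ u ∧ u ≤ A * Real.log T ∧ T ^ B * Real.exp (σ * u) < ‖D u t‖ := by
  obtain ⟨C, hC, htr⟩ := mellin_trunc
  obtain ⟨A0, hA01, hA0⟩ := DH31.zeta_bounds (a := 2) (by norm_num)
  have hZ := Z_nonneg 2
  set κ : ℝ := 9 / δ * (B + 3) with hκ
  have hκ0 : 0 < κ := by positivity
  set A : ℝ := 6 * κ + 2 with hA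
  have hA' : 0 < A := by positivity
  set c1 : ℝ := 2 * Real.exp 36 with hc1
  set c2 : ℝ := c1 + 12 * (Real.exp 26 * (Z 2 + 1) * (2 * A)) with hc2
  have hc10 : 0 < c1 := by positivity
  have hc20 : 0 < c2 := by positivity
  set c3 : ℝ := A0 * C * Real.exp 3 + c2 * (9 / δ) with hc3
  have hc30 : 0 < c3 := by positivity
  refine ⟨A, hA', max 11 c3, ?_⟩
  intro T hT σ hσ ρ hρ hρσ hρ6 hρT t ht
  by_contra hcon
  push Not at hcon
  have hT11 : 11 ≤ T := (le_max_left _ _).trans hT
  have hTc : c3 ≤ T := (le_max_right _ _).trans hT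
  have hT0 : 0 < T := by linarith
  have hρ1 : ρ.re < 1 := by
    by_contra h
    push Not at h
    exact riemannZeta_ne_zero_of_one_le_re h hρ
  set L := Real.log T with hL
  have hL1 : 1 ≤ L := by
    rw [hL, Real.le_log_iff_exp_le hT0]
    have := Real.exp_one_lt_d9
    linarith
  have hLT : L ≤ T := (Real.log_le_sub_one_of_pos hT0).trans (by linarith)
  set U := A * L with hU
  have hU0 : 0 ≤ U := by positivity
  have hP1 : (1 : ℝ) ≤ T ^ B := Real.one_le_rpow (by linarith) hB
  have hbd : ∀ u, 0 ≤ u → u ≤ U → ‖D u t‖ ≤ T ^ B * Real.exp (σ * u) := hcon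
  clear hcon
  clear_value L U c1 c2 c3 κ A
  set F : ℂ → ℂ := fun w => (Real.sqrt Real.pi : ℝ) * cexp (w ^ 2 / 4) -
    riemannZeta (w + t * I) * G U t w with hF
  set c : ℂ := ⟨5, ρ.im - t⟩ with hc
  have ht' := abs_le.1 ht
  have hball : ∀ w : ℂ, ‖w - c‖ < 5 - σ → σ < w.re ∧ w.re < 10 ∧ 1 < (w + t * I).im ∧
      ‖w‖ ≤ 12 ∧ ‖w + t * I‖ ≤ 2 * T := by
    intro w hw
    have h1 := (Complex.abs_re_le_norm (w - c)).trans_lt hw
    have h2 := (Complex.abs_im_le_norm (w - c)).trans_lt hw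
    rw [Complex.sub_re, abs_lt] at h1
    rw [Complex.sub_im, abs_lt] at h2
    have h3 : c.re = 5 := rfl
    have h4 : c.im = ρ.im - t := rfl
    rw [h3] at h1
    rw [h4] at h2
    refine ⟨by linarith [h1.1], by linarith [h1.2], ?_, ?_, ?_⟩
    · simp only [Complex.add_im, Complex.mul_im, Complex.ofReal_re, Complex.ofReal_im,
        Complex.I_re, Complex.I_im]
      linarith [h2.1]
    · have h5 := Complex.norm_le_abs_re_add_abs_im c
      rw [h3, h4] at h5
      have h6 : |ρ.im - t| ≤ 1 := by rw [abs_sub_comm]; exact ht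
      rw [abs_of_pos (by norm_num : (0:ℝ) < 5)] at h5
      have h7 : ‖w‖ ≤ ‖w - c‖ + ‖c‖ := by
        have := norm_add_le (w - c) c
        rwa [sub_add_cancel] at this
      linarith
    · have h5 : w + t * I = (w - c) + ⟨5, ρ.im⟩ := by
        apply Complex.ext
        · simp [hc]
        · simp [hc]
          ring
      have h6 := Complex.norm_le_abs_re_add_abs_im (⟨5, ρ.im⟩ : ℂ)
      simp only at h6
      rw [abs_of_pos (by norm_num : (0:ℝ) < 5), abs_of_pos (by linarith : 0 < ρ.im)] at h6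
      rw [h5]
      have h7 := norm_add_le (w - c) (⟨5, ρ.im⟩ : ℂ)
      linarith
  have hFd : DifferentiableOn ℂ F (Metric.ball c (5 - σ)) := by
    intro w hw
    rw [Metric.mem_ball, dist_eq_norm] at hw
    obtain ⟨g1, g2, g3, g4, g5⟩ := hball w hw
    have hz : DifferentiableAt ℂ riemannZeta (w + t * I) :=
      (DH31.zeta_analyticAt (by linarith)).differentiableAt
    have hz2 : DifferentiableAt ℂ (fun w : ℂ => riemannZeta (w + t * I)) w :=
      DifferentiableAt.comp (f := fun w : ℂ => w + t * I) w hz (by fun_prop)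
    exact (DifferentiableAt.sub (by fun_prop) (hz2.mul (differentiable_G U t w))).differentiableWithinAt
  have hm : ∀ z ∈ Metric.sphere c 1, ‖F z‖ ≤ A0 * C * Real.exp (-(U / 2)) := by
    intro w hw
    rw [mem_sphere_iff_norm] at hw
    have h1 := (Complex.abs_re_le_norm (w - c)).trans hw.le
    rw [Complex.sub_re, abs_le] at h1
    have h3 : c.re = 5 := rfl
    rw [h3] at h1
    have hre : 2 ≤ (w + t * I).re := by
      simp only [Complex.add_re, Complex.mul_re, Complex.ofReal_re, Complex.ofReal_im,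
        Complex.I_re, Complex.I_im]
      linarith [h1.1]
    obtain ⟨b1, b2⟩ := hA0 (w + t * I) hre
    have hne : riemannZeta (w + t * I) ≠ 0 := by
      intro h0
      rw [h0, norm_zero] at b2
      have : 0 < 1 / A0 := by positivity
      linarith
    have h5 := htr w (by linarith [h1.1]) (by linarith [h1.2]) t U hU0
    have h6 : F w = riemannZeta (w + t * I) * ((Real.sqrt Real.pi : ℝ) * cexp (w ^ 2 / 4) *
        (riemannZeta (w + t * I))⁻¹ - ∫ u in (-U)..U, D u t * cexp (-(w * u))) := by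
      rw [hF]
      simp only [G]
      field_simp
    rw [h6, norm_mul]
    calc _ ≤ A0 * (C * Real.exp (-(U / 2))) :=
          mul_le_mul b1 h5 (norm_nonneg _) (by linarith)
      _ = _ := by ring
  set s : ℝ := 5 - σ - δ / 2 with hs
  set r : ℝ := 5 - σ - δ with hr
  have hσ1 : σ ≤ 1 := by linarith
  have hM : ∀ z ∈ Metric.sphere c s, ‖F z‖ ≤ c2 * T ^ (B + 2) := by
    intro w hw
    rw [mem_sphere_iff_norm] at hw
    obtain ⟨g1, g2, g3, g4, g5⟩ := hball w (by rw [hw]; linarith)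
    have hTB : (1 : ℝ) ≤ T ^ (B + 2) := Real.one_le_rpow (by linarith) (by linarith)
    have e1 : ‖((Real.sqrt Real.pi : ℝ) : ℂ) * cexp (w ^ 2 / 4)‖ ≤ c1 := by
      rw [norm_mul, Complex.norm_real, Real.norm_of_nonneg (Real.sqrt_nonneg _), hc1]
      have h1 : Real.sqrt Real.pi ≤ 2 := by
        rw [Real.sqrt_le_left (by norm_num)]
        have := Real.pi_lt_four
        linarith
      have h2 : ‖cexp (w ^ 2 / 4)‖ ≤ Real.exp 36 := by
        refine (Complex.norm_exp_le_exp_norm _).trans (Real.exp_le_exp.2 ?_)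
        rw [norm_div, norm_pow, Complex.norm_ofNat]
        exact aux2 (norm_nonneg w) g4
      exact mul_le_mul h1 h2 (norm_nonneg _) (by norm_num)
    have e2 := norm_G_le hU0 hP1 hbd g1.le g2.le
    have e3 : ‖riemannZeta (w + t * I)‖ ≤ 12 * T := by
      have hre : (w + t * I).re = w.re := by simp
      refine (Pool.Agent.H388LH.zeta_growth (by rw [hre]; linarith) g3.le).trans ?_
      linarith
    calc ‖F w‖ ≤ ‖((Real.sqrt Real.pi : ℝ) : ℂ) * cexp (w ^ 2 / 4)‖ +
          ‖riemannZeta (w + t * I) * G U t w‖ := norm_sub_le _ _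
      _ ≤ c1 + (12 * T) * (Real.exp 26 * (Z 2 + 1) * T ^ B * (2 * U)) := by
          rw [norm_mul (riemannZeta (w + t * I)) (G U t w)]
          exact add_le_add e1 (mul_le_mul e3 e2 (norm_nonneg _) (by linarith))
      _ ≤ c1 * T ^ (B + 2) + 12 * (Real.exp 26 * (Z 2 + 1) * (2 * A)) * T ^ (B + 2) := by
          have h1 : c1 ≤ c1 * T ^ (B + 2) := le_mul_of_one_le_right (by positivity) hTB
          have h2 : (12 * T) * (Real.exp 26 * (Z 2 + 1) * T ^ B * (2 * U)) ≤
              12 * (Real.exp 26 * (Z 2 + 1) * (2 * A)) * T ^ (B + 2) := by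
            have h3 : T ^ (B + 2) = T ^ B * (T * T) := by
              rw [Real.rpow_add hT0]
              congr 1
              rw [Real.rpow_two]
              ring
            rw [h3, hU]
            exact aux3 (by positivity) (by positivity) hA'.le hT0.le hLT
          linarith
      _ = _ := by rw [hc2]; ring
  -- the number of Taylor coefficients
  set K : ℕ := ⌈κ * L⌉₊ with hK
  have hK1 : κ * L ≤ K := Nat.le_ceil _
  have hK2 : (K : ℝ) ≤ κ * L + 1 := (Nat.ceil_lt_add_one (by positivity)).le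
  have hw0 : ‖(ρ - t * I) - c‖ ≤ r := by
    have h1 : (ρ - t * I) - c = (((ρ.re - 5 : ℝ)) : ℂ) := by
      apply Complex.ext
      · simp [hc]
      · simp [hc]
    rw [h1, Complex.norm_real, Real.norm_eq_abs, abs_of_neg (by linarith)]
    linarith
  have key := DH31.circle_bound (f := F) (c := c) (z := ρ - t * I) (r := r) (s0 := 1) (s := s)
    (R := 5 - σ) (m := A0 * C * Real.exp (-(U / 2))) (M := c2 * T ^ (B + 2)) one_pos (by linarith)
    (by linarith) (by linarith) (by linarith) (by linarith) hFd hm hM hw0 K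
  have hs0 : 0 < s := by linarith
  have hval : 1 < ‖F (ρ - t * I)‖ := by
    have h1 : F (ρ - t * I) = (Real.sqrt Real.pi : ℝ) * cexp ((ρ - t * I) ^ 2 / 4) := by
      rw [hF]
      simp only
      rw [sub_add_cancel, hρ]
      ring
    rw [h1, norm_mul, Complex.norm_real, Real.norm_of_nonneg (Real.sqrt_nonneg _),
      Complex.norm_exp]
    have h2 : ((ρ - t * I) ^ 2 / 4).re = (ρ.re ^ 2 - (ρ.im - t) ^ 2) / 4 := by
      have : ((ρ - t * I) ^ 2 / 4) = (ρ - t * I) ^ 2 / ((4 : ℝ) : ℂ) := by norm_num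
      rw [this, Complex.div_ofReal_re, sq, Complex.mul_re]
      simp
      ring
    rw [h2]
    have h3 : -(1 / 4 : ℝ) ≤ (ρ.re ^ 2 - (ρ.im - t) ^ 2) / 4 := by
      have : (ρ.im - t) ^ 2 ≤ 1 := by
        rw [← sq_abs, abs_sub_comm]
        exact pow_le_one₀ (abs_nonneg _) ht
      have := sq_nonneg ρ.re
      linarith
    have h4 : (3 / 4 : ℝ) ≤ Real.exp ((ρ.re ^ 2 - (ρ.im - t) ^ 2) / 4) := by
      have := Real.add_one_le_exp ((ρ.re ^ 2 - (ρ.im - t) ^ 2) / 4)
      linarith
    have h5 : (17 / 10 : ℝ) ≤ Real.sqrt Real.pi := by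
      apply Real.le_sqrt_of_sq_le
      have := Real.pi_gt_three
      norm_num
      linarith
    exact aux5 h5 h4
  -- the first term
  have ht1 : A0 * C * Real.exp (-(U / 2)) * ∑ n ∈ Finset.range K, (r / 1) ^ n ≤
      A0 * C * Real.exp 3 / T := by
    have h1 : ∑ n ∈ Finset.range K, (r / 1) ^ n ≤ Real.exp (3 * K) := by
      have h2 : ∀ n ∈ Finset.range K, (r / 1) ^ n ≤ Real.exp (2 * K) := by
        intro n hn
        rw [Finset.mem_range] at hn
        have h5 := aux1
        rw [div_one]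
        calc r ^ n ≤ 5 ^ n := pow_le_pow_left₀ (by linarith) (by linarith) n
          _ ≤ 5 ^ K := pow_le_pow_right₀ (by norm_num) hn.le
          _ ≤ (Real.exp 2) ^ K := pow_le_pow_left₀ (by norm_num) h5 K
          _ = Real.exp (2 * K) := by rw [← Real.exp_nat_mul]; congr 1; ring
      calc _ ≤ ∑ n ∈ Finset.range K, Real.exp (2 * K) := Finset.sum_le_sum h2
        _ = K * Real.exp (2 * K) := by rw [Finset.sum_const, Finset.card_range, nsmul_eq_mul]
        _ ≤ Real.exp K * Real.exp (2 * K) := by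
            apply mul_le_mul_of_nonneg_right _ (Real.exp_pos _).le
            have := Real.add_one_le_exp (K : ℝ)
            linarith
        _ = _ := by rw [← Real.exp_add]; congr 1; ring
    have h3 : Real.exp (-(U / 2)) * Real.exp (3 * K) ≤ Real.exp 3 / T := by
      have hTe : Real.exp L = T := by rw [hL]; exact Real.exp_log hT0
      rw [← Real.exp_add, ← hTe, ← Real.exp_sub]
      apply Real.exp_le_exp.2
      have hAL : U = 6 * (κ * L) + 2 * L := by rw [hU, hA]; ring
      rw [hAL]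
      linarith
    calc _ ≤ A0 * C * Real.exp (-(U / 2)) * Real.exp (3 * K) := by gcongr
      _ = A0 * C * (Real.exp (-(U / 2)) * Real.exp (3 * K)) := by ring
      _ ≤ A0 * C * (Real.exp 3 / T) := by gcongr
      _ = _ := by ring
  -- the second term
  have ht2 : c2 * T ^ (B + 2) * (r / s) ^ K / (1 - r / s) ≤ c2 * (9 / δ) / T := by
    have h1 : δ / 9 ≤ 1 - r / s :=
      aux7 hδ hs0 (by rw [hs]; linarith) (by rw [hr, hs]; ring)
    have h2 : (r / s) ^ K ≤ T ^ (-(B + 3)) := by
      have h3 : r / s ≤ Real.exp (-(δ / 9)) := by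
        have := Real.add_one_le_exp (-(δ / 9))
        linarith
      have h4 : 0 ≤ r / s := div_nonneg (by linarith) hs0.le
      calc (r / s) ^ K ≤ (Real.exp (-(δ / 9))) ^ K := pow_le_pow_left₀ h4 h3 K
        _ = Real.exp (K * (-(δ / 9))) := by rw [← Real.exp_nat_mul]
        _ ≤ Real.exp (L * (-(B + 3))) := by
            apply Real.exp_le_exp.2
            have h5 : κ * δ / 9 = B + 3 := by rw [hκ]; field_simp
            exact aux8 hδ hK1 h5
        _ = _ := by rw [Real.rpow_def_of_pos hT0, hL]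
    have h3 : T ^ (B + 2) * T ^ (-(B + 3)) = 1 / T := by
      rw [← Real.rpow_add hT0, show B + 2 + -(B + 3) = -1 by ring, Real.rpow_neg_one, one_div]
    have h4 : 0 < δ / 9 := by positivity
    rw [div_le_iff₀ (by linarith)]
    calc c2 * T ^ (B + 2) * (r / s) ^ K ≤ c2 * T ^ (B + 2) * T ^ (-(B + 3)) := by gcongr
      _ = c2 / T := by rw [mul_assoc, h3]; ring
      _ = c2 * (9 / δ) / T * (δ / 9) := by field_simp
      _ ≤ _ := by
          apply mul_le_mul_of_nonneg_left h1
          positivity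
  have hfin : A0 * C * Real.exp 3 / T + c2 * (9 / δ) / T ≤ 1 := by
    rw [← add_div, div_le_one hT0, ← hc3]
    exact hTc
  linarith

end

end Pool.Agent.R305.MV
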