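import Pool.Agent.R305.MV.B
set_option autoImplicit false
set_option maxHeartbeats 1000000

/-!
A zero-free window implies small Moebius polynomials.
-/

open Complex Filter Topology MeasureTheory Set
open scoped Interval

namespace Pool.Agent.R305.MV

noncomputable section

/-! ### The integral over `v` -/

lemma integral_dt' (u t : ℝ) (n : ℕ) :
    ∫ v : ℝ, ((ArithmeticFunction.moebius n : ℂ) *
      cexp (-((2 + v * I + t * I) * (Real.log n : ℝ)))) * cexp ((2 + v * I) ^ 2 / 4 + u * (2 + v * I)) =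
    (2 * Real.sqrt Real.pi : ℝ) * dt u t n := by
  have h1 : ∀ v : ℝ, ((ArithmeticFunction.moebius n : ℂ) *
      cexp (-((2 + v * I + t * I) * (Real.log n : ℝ)))) * cexp ((2 + v * I) ^ 2 / 4 + u * (2 + v * I)) =
      (ArithmeticFunction.moebius n : ℂ) * cexp ((-(1 / 4)) * (v : ℂ) ^ 2 +
        (I * (1 + u - (Real.log n : ℝ))) * v +
        (1 + 2 * (u - (Real.log n : ℝ)) - t * (Real.log n : ℝ) * I)) := by
    intro v
    rw [mul_assoc, ← Complex.exp_add]
    congr 2
    linear_combination ((v : ℂ) ^ 2 / 4) * Complex.I_sq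
  simp_rw [h1]
  rw [integral_const_mul, integral_cexp_quadratic (by norm_num), sqrt2]
  unfold dt
  have h2 : cexp ((1 + 2 * (u - (Real.log n : ℝ)) - t * (Real.log n : ℝ) * I) -
      (I * (1 + u - (Real.log n : ℝ))) ^ 2 / (4 * (-(1 / 4)))) =
      cexp (-(((Real.log n - u : ℝ) : ℂ)) ^ 2 - ((t * Real.log n : ℝ) : ℂ) * I) := by
    generalize (Real.log n : ℝ) = l
    congr 1
    simp only [Complex.ofReal_sub, Complex.ofReal_mul]
    linear_combination ((1 + (u : ℂ) - l) ^ 2) * Complex.I_sq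
  rw [h2]
  push_cast
  ring

lemma norm_kernel (u x v : ℝ) : ‖cexp (((x : ℂ) + v * I) ^ 2 / 4 + u * ((x : ℂ) + v * I))‖ =
    Real.exp ((x ^ 2 - v ^ 2) / 4 + u * x) := by
  rw [Complex.norm_exp]
  congr 1
  have h : ((x : ℂ) + v * I) ^ 2 / 4 + u * ((x : ℂ) + v * I) =
      (((x ^ 2 - v ^ 2) / 4 + u * x : ℝ) : ℂ) + ((x * v / 2 + u * v : ℝ) : ℂ) * I := by
    push_cast
    linear_combination ((v : ℂ) ^ 2 / 4) * Complex.I_sq
  rw [h]
  simp only [Complex.add_re, Complex.ofReal_re, Complex.mul_re, Complex.I_re, Complex.ofReal_im,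
    Complex.I_im]
  ring

lemma gauss2 : Integrable fun v : ℝ => Real.exp (-(v ^ 2 / 4)) := by
  have := integrable_exp_neg_mul_sq (b := 1 / 4) (by norm_num)
  refine this.congr (Eventually.of_forall fun v => ?_)
  simp only
  congr 1
  ring

lemma gauss3 : Integrable fun v : ℝ => Real.exp (-(v ^ 2 / 8)) := by
  have := integrable_exp_neg_mul_sq (b := 1 / 8) (by norm_num)
  refine this.congr (Eventually.of_forall fun v => ?_)
  simp only
  congr 1
  ring

lemma norm_H_le (u t v : ℝ) (n : ℕ) : ‖((ArithmeticFunction.moebius n : ℂ) *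
      cexp (-((2 + v * I + t * I) * (Real.log n : ℝ)))) *
      cexp ((2 + v * I) ^ 2 / 4 + u * (2 + v * I))‖ ≤
    (1 / (n : ℝ) ^ (2 : ℝ)) * (Real.exp (1 + 2 * u) * Real.exp (-(v ^ 2 / 4))) := by
  rcases Nat.eq_zero_or_pos n with rfl | hn
  · simp
  have hn0 : (0 : ℝ) < n := by exact_mod_cast hn
  have h1 := norm_kernel u 2 v
  push_cast at h1
  rw [norm_mul, h1, norm_mul]
  have h2 : ‖cexp (-((2 + v * I + t * I) * (Real.log n : ℝ)))‖ = 1 / (n : ℝ) ^ (2 : ℝ) := by
    rw [Complex.norm_exp, one_div, ← Real.rpow_neg hn0.le, Real.rpow_def_of_pos hn0]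
    congr 1
    generalize (Real.log n : ℝ) = l
    simp only [Complex.neg_re, Complex.add_re, Complex.ofReal_re, Complex.mul_re, Complex.I_re,
      Complex.ofReal_im, Complex.I_im, Complex.re_ofNat, Complex.add_im, Complex.im_ofNat,
      Complex.mul_im]
    ring
  have h3 : Real.exp (((2 : ℝ) ^ 2 - v ^ 2) / 4 + u * 2) =
      Real.exp (1 + 2 * u) * Real.exp (-(v ^ 2 / 4)) := by
    rw [← Real.exp_add]
    congr 1
    ring
  rw [h2, h3]
  apply mul_le_mul_of_nonneg_right _ (by positivity)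
  exact mul_le_of_le_one_left (by positivity) (norm_mu_le n)

/-- the formula of `D` by `1 / zeta` -/
theorem inv_formula (u t : ℝ) : ∫ v : ℝ, (riemannZeta (2 + v * I + t * I))⁻¹ *
    cexp ((2 + v * I) ^ 2 / 4 + u * (2 + v * I)) = (2 * Real.sqrt Real.pi : ℝ) * D u t := by
  have hI : ∀ n : ℕ, Integrable fun v : ℝ => ((ArithmeticFunction.moebius n : ℂ) *
      cexp (-((2 + v * I + t * I) * (Real.log n : ℝ)))) *
      cexp ((2 + v * I) ^ 2 / 4 + u * (2 + v * I)) := by
    intro n
    refine Integrable.mono' ((gauss2.const_mul (Real.exp (1 + 2 * u))).const_mul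
      (1 / (n : ℝ) ^ (2 : ℝ))) (Continuous.aestronglyMeasurable (by fun_prop))
      (Eventually.of_forall fun v => norm_H_le u t v n)
  have hs : Summable fun n : ℕ => ∫ v : ℝ, ‖((ArithmeticFunction.moebius n : ℂ) *
      cexp (-((2 + v * I + t * I) * (Real.log n : ℝ)))) *
      cexp ((2 + v * I) ^ 2 / 4 + u * (2 + v * I))‖ := by
    refine Summable.of_nonneg_of_le (fun n => integral_nonneg fun v => norm_nonneg _) (fun n => ?_)
      ((summable_Z (by norm_num : (1:ℝ) < 2)).mul_right
        (∫ v : ℝ, Real.exp (1 + 2 * u) * Real.exp (-(v ^ 2 / 4))))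
    refine (integral_mono (hI n).norm ((gauss2.const_mul (Real.exp (1 + 2 * u))).const_mul
      (1 / (n : ℝ) ^ (2 : ℝ))) (fun v => norm_H_le u t v n)).trans (le_of_eq ?_)
    rw [integral_const_mul]
  have h1 := hasSum_integral_of_summable_integral_norm hI hs
  have h2 : (fun v : ℝ => ∑' n : ℕ, ((ArithmeticFunction.moebius n : ℂ) *
      cexp (-((2 + v * I + t * I) * (Real.log n : ℝ)))) *
      cexp ((2 + v * I) ^ 2 / 4 + u * (2 + v * I))) = fun v : ℝ =>
      (riemannZeta (2 + v * I + t * I))⁻¹ * cexp ((2 + v * I) ^ 2 / 4 + u * (2 + v * I)) := by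
    funext v
    rw [tsum_mul_right, (zeta_inv (s := 2 + v * I + t * I) (by simp)).tsum_eq]
  rw [h2] at h1
  refine h1.unique ?_
  have h3 : HasSum (fun n : ℕ => (2 * Real.sqrt Real.pi : ℝ) * dt u t n)
      ((2 * Real.sqrt Real.pi : ℝ) * D u t) := by
    have := ((summable_dt u t).of_norm.hasSum).mul_left ((2 * Real.sqrt Real.pi : ℝ) : ℂ)
    unfold D
    exact_mod_cast this
  convert! h3 using 1
  funext n
  exact integral_dt' u t n

/-- **the window bound** -/
theorem window_bound : ∃ C : ℝ, 0 < C ∧ ∀ u : ℝ, 0 ≤ u → ∀ t V σ E : ℝ, 1 / 2 ≤ σ → σ ≤ 1 →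
    0 ≤ V → V < t → 1 ≤ E →
    (∀ z : ℂ, σ ≤ z.re → z.re ≤ 2 → |z.im - t| ≤ V →
      riemannZeta z ≠ 0 ∧ ‖(riemannZeta z)⁻¹‖ ≤ E) →
    ‖D u t‖ ≤ C * E * (Real.exp (σ * u) + Real.exp (2 * u - V ^ 2 / 8)) := by
  obtain ⟨A, hA1, hA⟩ := DH31.zeta_bounds (a := 2) (by norm_num)
  set J2 : ℝ := ∫ v : ℝ, Real.exp (-(v ^ 2 / 4)) with hJ2
  set J3 : ℝ := ∫ v : ℝ, Real.exp (-(v ^ 2 / 8)) with hJ3
  have hJ20 : 0 ≤ J2 := integral_nonneg fun v => (Real.exp_pos _).le
  have hJ30 : 0 ≤ J3 := integral_nonneg fun v => (Real.exp_pos _).le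
  refine ⟨Real.exp 1 * (J2 + A * J3 + 4), by positivity, ?_⟩
  intro u hu t V σ E hσ hσ1 hV hVt hE hz
  set f : ℂ → ℂ := fun w => (riemannZeta (w + t * I))⁻¹ * cexp (w ^ 2 / 4 + u * w) with hf
  have he1 : 1 ≤ Real.exp 1 := Real.one_le_exp (by norm_num)
  -- pointwise bounds
  have hb : ∀ x y : ℝ, σ ≤ x → x ≤ 2 → |y| ≤ V → ‖f (x + y * I)‖ ≤
      E * Real.exp ((x ^ 2 - y ^ 2) / 4 + u * x) := by
    intro x y h1 h2 h3
    rw [hf]
    simp only
    rw [norm_mul, norm_kernel]
    apply mul_le_mul_of_nonneg_right _ (Real.exp_pos _).le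
    refine (hz _ ?_ ?_ ?_).2
    · simpa using h1
    · simpa using h2
    · simpa using h3
  have hdiff : DifferentiableOn ℂ f ([[σ, 2]] ×ℂ [[-V, V]]) := by
    intro w hw
    rw [Complex.mem_reProdIm, Set.uIcc_of_le (by linarith), Set.uIcc_of_le (by linarith)] at hw
    obtain ⟨⟨h1, h2⟩, h3, h4⟩ := hw
    have h5 : 0 < (w + t * I).im := by
      simp only [Complex.add_im, Complex.mul_im, Complex.ofReal_re, Complex.ofReal_im,
        Complex.I_re, Complex.I_im]
      linarith
    have hne : riemannZeta (w + t * I) ≠ 0 := (hz _ (by simpa using h1) (by simpa using h2) (by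
      simp only [Complex.add_im, Complex.mul_im, Complex.ofReal_re, Complex.ofReal_im,
        Complex.I_re, Complex.I_im]
      rw [abs_le]
      constructor <;> linarith)).1
    have hza : DifferentiableAt ℂ riemannZeta (w + t * I) := (DH31.zeta_analyticAt h5).differentiableAt
    have hz2 : DifferentiableAt ℂ (fun w : ℂ => riemannZeta (w + t * I)) w :=
      DifferentiableAt.comp (f := fun w : ℂ => w + t * I) w hza (by fun_prop)
    exact ((hz2.inv hne).mul (by fun_prop)).differentiableWithinAt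
  have hrect := Complex.integral_boundary_rect_eq_zero_of_differentiableOn f
    (⟨σ, -V⟩ : ℂ) (⟨2, V⟩ : ℂ) hdiff
  simp only at hrect
  -- the left side
  have hleft : ‖∫ y in (-V)..V, f (σ + y * I)‖ ≤ Real.exp 1 * J2 * (E * Real.exp (σ * u)) := by
    have h1 : ∀ y ∈ Set.Ioc (-V) V, ‖f (σ + y * I)‖ ≤
        (E * Real.exp 1 * Real.exp (σ * u)) * Real.exp (-(y ^ 2 / 4)) := by
      intro y hy
      refine (hb σ y le_rfl (by linarith) (abs_le.2 ⟨hy.1.le, hy.2⟩)).trans ?_
      rw [mul_assoc, mul_assoc, ← Real.exp_add, ← Real.exp_add]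
      apply mul_le_mul_of_nonneg_left _ (by linarith)
      apply Real.exp_le_exp.2
      have : σ ^ 2 ≤ 1 := pow_le_one₀ (by linarith) hσ1
      linarith
    rw [intervalIntegral.integral_of_le (by linarith)]
    have h2 := norm_integral_le_of_norm_le (μ := volume.restrict (Set.Ioc (-V) V))
      (f := fun y : ℝ => f (σ + y * I))
      ((gauss2.const_mul (E * Real.exp 1 * Real.exp (σ * u))).integrableOn)
      ((ae_restrict_mem measurableSet_Ioc).mono h1)
    refine h2.trans ?_
    refine (setIntegral_le_integral (gauss2.const_mul (E * Real.exp 1 * Real.exp (σ * u)))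
      (Eventually.of_forall fun v => by positivity)).trans (le_of_eq ?_)
    rw [integral_const_mul, ← hJ2]
    ring
  -- the horizontal sides
  have hhor : ∀ y : ℝ, |y| = V → ‖∫ x in σ..2, f (x + y * I)‖ ≤
      Real.exp 1 * 2 * (E * Real.exp (2 * u - V ^ 2 / 8)) := by
    intro y hy
    have h1 := intervalIntegral.norm_integral_le_of_norm_le_const (a := σ) (b := 2)
      (f := fun x : ℝ => f (x + y * I)) (C := Real.exp 1 * (E * Real.exp (2 * u - V ^ 2 / 8)))
      (fun x hx => by
        rw [Set.uIoc_of_le (by linarith)] at hx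
        refine (hb x y hx.1.le hx.2 hy.le).trans ?_
        rw [mul_left_comm, ← Real.exp_add]
        apply mul_le_mul_of_nonneg_left _ (by linarith)
        apply Real.exp_le_exp.2
        have h2 : y ^ 2 = V ^ 2 := by rw [← sq_abs, hy]
        rw [h2]
        have h3 : x ^ 2 ≤ 4 := by nlinarith [hx.1, hx.2]
        have h4 : u * x ≤ u * 2 := mul_le_mul_of_nonneg_left hx.2 hu
        have h5 := sq_nonneg V
        linarith)
    refine h1.trans ?_
    rw [abs_of_nonneg (by linarith)]
    have h6 : 0 ≤ Real.exp 1 * (E * Real.exp (2 * u - V ^ 2 / 8)) := by positivity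
    calc _ ≤ Real.exp 1 * (E * Real.exp (2 * u - V ^ 2 / 8)) * 2 :=
          mul_le_mul_of_nonneg_left (by linarith) h6
      _ = _ := by ring
  -- the tails
  have hfI : Integrable fun v : ℝ => f (2 + v * I) := by
    refine Integrable.mono' (gauss2.const_mul (A * Real.exp (1 + 2 * u))) ?_
      (Eventually.of_forall fun v => ?_)
    · refine Continuous.aestronglyMeasurable ?_
      rw [hf]
      refine Continuous.mul ?_ (by fun_prop)
      rw [continuous_iff_continuousAt]
      intro v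
      have h1 : (2 + v * I + t * I : ℂ) ≠ 1 := by
        intro h
        have := congrArg Complex.re h
        norm_num at this
      have h2 : ContinuousAt riemannZeta (2 + v * I + t * I : ℂ) :=
        (differentiableAt_riemannZeta h1).continuousAt
      have h3 : ContinuousAt (fun v : ℝ => riemannZeta (2 + v * I + t * I : ℂ)) v :=
        ContinuousAt.comp (f := fun v : ℝ => (2 + v * I + t * I : ℂ)) h2 (by fun_prop)
      exact h3.inv₀ (riemannZeta_ne_zero_of_one_le_re (by simp))
    · have h1 := norm_kernel u 2 v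
      push_cast at h1
      rw [hf]
      simp only
      rw [norm_mul, h1, norm_inv]
      obtain ⟨b1, b2⟩ := hA (2 + v * I + t * I) (by simp)
      have h2 : ‖riemannZeta (2 + v * I + t * I)‖⁻¹ ≤ A := by
        have h3 : 0 < 1 / A := by positivity
        have := inv_anti₀ h3 b2
        rwa [one_div, inv_inv] at this
      calc _ ≤ A * Real.exp (((2 : ℝ) ^ 2 - v ^ 2) / 4 + u * 2) :=
            mul_le_mul_of_nonneg_right h2 (Real.exp_pos _).le
        _ = _ := by
            rw [mul_assoc, ← Real.exp_add]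
            congr 2
            ring
  have htail := tail hfI (g := fun v => (A * Real.exp (1 + (2 * u - V ^ 2 / 8))) *
      Real.exp (-(v ^ 2 / 8))) (gauss3.const_mul _) (fun v => by positivity) hV (fun v hv => by
    have h1 := norm_kernel u 2 v
    push_cast at h1
    rw [hf]
    simp only
    rw [norm_mul, h1, norm_inv]
    obtain ⟨b1, b2⟩ := hA (2 + v * I + t * I) (by simp)
    have h2 : ‖riemannZeta (2 + v * I + t * I)‖⁻¹ ≤ A := by
      have h3 : 0 < 1 / A := by positivity
      have := inv_anti₀ h3 b2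
      rwa [one_div, inv_inv] at this
    calc _ ≤ A * Real.exp (((2 : ℝ) ^ 2 - v ^ 2) / 4 + u * 2) :=
          mul_le_mul_of_nonneg_right h2 (Real.exp_pos _).le
      _ ≤ _ := by
          rw [mul_assoc, ← Real.exp_add]
          apply mul_le_mul_of_nonneg_left _ (by linarith)
          apply Real.exp_le_exp.2
          have h4 : V ^ 2 ≤ v ^ 2 := by
            rw [← sq_abs v]
            exact pow_le_pow_left₀ hV hv 2
          linarith)
  have hform := inv_formula u t
  have hsq : (1 : ℝ) ≤ 2 * Real.sqrt Real.pi := by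
    have h5 : (1 : ℝ) ≤ Real.sqrt Real.pi := by
      apply Real.le_sqrt_of_sq_le
      have := Real.pi_gt_three
      norm_num
      linarith
    linarith
  have hfe : ∫ v : ℝ, f (2 + v * I) = (2 * Real.sqrt Real.pi : ℝ) * D u t := hform
  have hint2 : ‖∫ y in (-V)..V, f (2 + y * I)‖ ≤ Real.exp 1 * J2 * (E * Real.exp (σ * u)) +
      2 * (Real.exp 1 * 2 * (E * Real.exp (2 * u - V ^ 2 / 8))) := by
    have h1 := hhor V (abs_of_nonneg hV)
    have h2 := hhor (-V) (by rw [abs_neg, abs_of_nonneg hV])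
    have h3 : I * ∫ y in (-V)..V, f (2 + y * I) = (I * ∫ y in (-V)..V, f (σ + y * I)) +
        ((∫ x in σ..2, f (x + V * I)) - ∫ x in σ..2, f (x + (-V : ℝ) * I)) := by
      have := hrect
      simp only [smul_eq_mul, Complex.ofReal_ofNat] at this
      linear_combination this
    have h4 : ‖I * ∫ y in (-V)..V, f (2 + y * I)‖ = ‖∫ y in (-V)..V, f (2 + y * I)‖ := by
      rw [norm_mul, Complex.norm_I, one_mul]
    rw [← h4, h3]
    refine (norm_add_le _ _).trans ?_
    have h5 := norm_sub_le (∫ x in σ..2, f (x + V * I)) (∫ x in σ..2, f (x + (-V : ℝ) * I))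
    rw [norm_mul, Complex.norm_I, one_mul]
    linarith
  have hfin : ‖D u t‖ ≤ ‖∫ v : ℝ, f (2 + v * I)‖ := by
    rw [hfe, norm_mul, Complex.norm_real, Real.norm_of_nonneg (by positivity)]
    exact le_mul_of_one_le_left (norm_nonneg _) hsq
  have htail2 : ‖(∫ v : ℝ, f (2 + v * I)) - ∫ v in (-V)..V, f (2 + v * I)‖ ≤
      Real.exp 1 * (A * J3) * (E * Real.exp (2 * u - V ^ 2 / 8)) := by
    refine htail.trans ?_
    rw [integral_const_mul, ← hJ3, Real.exp_add]
    have h1 : 0 ≤ Real.exp 1 * (A * J3) * Real.exp (2 * u - V ^ 2 / 8) := by positivity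
    calc _ = Real.exp 1 * (A * J3) * Real.exp (2 * u - V ^ 2 / 8) * 1 := by ring
      _ ≤ Real.exp 1 * (A * J3) * Real.exp (2 * u - V ^ 2 / 8) * E :=
          mul_le_mul_of_nonneg_left hE h1
      _ = _ := by ring
  have h7 : ‖∫ v : ℝ, f (2 + v * I)‖ ≤
      ‖(∫ v : ℝ, f (2 + v * I)) - ∫ v in (-V)..V, f (2 + v * I)‖ +
        ‖∫ v in (-V)..V, f (2 + v * I)‖ := by
    have := norm_add_le ((∫ v : ℝ, f (2 + v * I)) - ∫ v in (-V)..V, f (2 + v * I))
      (∫ v in (-V)..V, f (2 + v * I))
    rwa [sub_add_cancel] at this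
  set X : ℝ := E * Real.exp (σ * u) with hX
  set Y : ℝ := E * Real.exp (2 * u - V ^ 2 / 8) with hY
  have hX0 : 0 ≤ X := by positivity
  have hY0 : 0 ≤ Y := by positivity
  calc ‖D u t‖ ≤ Real.exp 1 * (A * J3) * Y + (Real.exp 1 * J2 * X + 2 * (Real.exp 1 * 2 * Y)) := by
        linarith
    _ ≤ Real.exp 1 * (J2 + A * J3 + 4) * (X + Y) := by
        have h8 : 0 ≤ Real.exp 1 * (J2 * Y + (A * J3) * X + 4 * X) := by positivity
        linarith
    _ = _ := by rw [hX, hY]; ring

end

end Pool.Agent.R305.MV
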