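import Pool.Agent.R305.MV.D
import Pool.Agent.H31R2.DH.Assemble
set_option autoImplicit false
set_option maxHeartbeats 1000000

/-!
Bounds for `1 / zeta` in a zero-free window.
-/

open Complex Filter Topology MeasureTheory Set

namespace Pool.Agent.R305.MV

noncomputable section

/-- logarithms are small -/
lemma ev_small {κ : ℝ} (hκ : 0 < κ) (c : ℝ) : ∃ T0 : ℝ, 3 ≤ T0 ∧ ∀ T : ℝ, T0 ≤ T →
    1 ≤ Real.log T ∧ c ≤ κ * Real.log T ∧ Real.log T ≤ T := by
  refine ⟨max 3 (Real.exp (c / κ)), le_max_left _ _, fun T hT => ?_⟩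
  have h3 : 3 ≤ T := (le_max_left _ _).trans hT
  have hT0 : 0 < T := by linarith
  refine ⟨?_, ?_, (Real.log_le_sub_one_of_pos hT0).trans (by linarith)⟩
  · rw [Real.le_log_iff_exp_le hT0]
    have := Real.exp_one_lt_d9
    linarith
  · have : c / κ ≤ Real.log T := by
      rw [Real.le_log_iff_exp_le hT0]
      exact (le_max_right _ _).trans hT
    rw [div_le_iff₀ hκ] at this
    linarith

lemma center_re_im {a t r : ℝ} {z : ℂ} (hz : z ∈ Metric.closedBall (⟨a, t⟩ : ℂ) r) :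
    a - r ≤ z.re ∧ z.re ≤ a + r ∧ |z.im - t| ≤ r := by
  rw [Metric.mem_closedBall, dist_eq_norm] at hz
  have h1 := Complex.abs_re_le_norm (z - ⟨a, t⟩)
  have h2 := Complex.abs_im_le_norm (z - ⟨a, t⟩)
  simp only [Complex.sub_re, Complex.sub_im] at h1 h2
  have h3 := abs_le.1 (h1.trans hz)
  exact ⟨by linarith [h3.1], by linarith [h3.2], h2.trans hz⟩

lemma ee1 {x y A : ℝ} (h : x ≤ A) (hy : 1 ≤ A * y) (hA : 0 < A) : x ≤ A * A * y := by nlinarith

lemma ee2 {T : ℝ} (h : 10 ≤ T) : 6 * (T + 6) ≤ T * T := by nlinarith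

lemma ee3 {X R δ : ℝ} (hX : 0 ≤ X) (hR : R ≤ 3 / 2) (hδ : 0 < δ) :
    2 * X * (R - δ / 2) ≤ 3 * X := by nlinarith

lemma ee4 {R δ : ℝ} (hR : R ≤ 3 / 2) (hδ : 0 < δ) :
    R - δ ≤ (1 - δ / 3) * (R - δ / 2) := by nlinarith

lemma ee5 {T : ℝ} (h : 3 ≤ T) : T ≤ T * T ∧ 2 * T ≤ T * T := ⟨by nlinarith, by nlinarith⟩

lemma ee6 {u A L : ℝ} (h1 : u ≤ A * L) (h2 : 16 * A ≤ L) (hL : 0 ≤ L) : 2 * u ≤ L ^ 2 / 8 := by
  nlinarith

/-- **The inverse of zeta in a zero-free window.** -/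
theorem inv_zeta_bound {δ η : ℝ} (hδ : 0 < δ) (hδ1 : δ ≤ 1 / 4) (hη : 0 < η) :
    ∃ T0 : ℝ, 3 ≤ T0 ∧ ∀ T : ℝ, T0 ≤ T → ∀ σ : ℝ, 1 / 2 + δ ≤ σ → σ ≤ 1 → ∀ z : ℂ, σ ≤ z.re →
      z.re ≤ 2 → 3 ≤ z.im → z.im ≤ T →
      (∀ ρ : ℂ, riemannZeta ρ = 0 → σ - δ < ρ.re → 2 ≤ |ρ.im - z.im|) →
      riemannZeta z ≠ 0 ∧ ‖(riemannZeta z)⁻¹‖ ≤ T ^ η := by
  obtain ⟨A, hA1, hA⟩ := DH31.zeta_bounds (a := 9 / 8) (by norm_num)
  have hA0 : 0 < A := by linarith
  have hlogA : 0 ≤ Real.log A := Real.log_nonneg hA1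
  obtain ⟨K, hK⟩ := exists_pow_lt_of_lt_one (show 0 < η / 4 / (72 / δ ^ 2) by positivity)
    (show 1 - δ / 3 < 1 by linarith)
  have hq0 : 0 ≤ 1 - δ / 3 := by linarith
  rw [lt_div_iff₀ (by positivity)] at hK
  set m : ℝ := 12 * (2 * Real.log A + 1) with hm
  have hm0 : 0 < m := by positivity
  set C : ℝ := m * (K * 2 ^ K) + 36 / δ ^ 2 * (Real.log A + 1) + Real.log A with hC
  obtain ⟨T1, hT13, hT1⟩ := ev_small (show 0 < η / 4 by positivity) C
  refine ⟨max T1 10, hT13.trans (le_max_left _ _), ?_⟩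
  intro T hT σ hσ hσ1 z hz1 hz2 hz3 hzT hfree
  obtain ⟨hL1, hLC, -⟩ := hT1 T ((le_max_left _ _).trans hT)
  have hT10 : 10 ≤ T := (le_max_right _ _).trans hT
  have hT0 : 0 < T := by linarith
  set L := Real.log T with hL
  set c : ℂ := ⟨2, z.im⟩ with hc
  set R : ℝ := 2 - σ + δ with hR
  have hcre : c.re = 2 := rfl
  have hgood : ∀ w ∈ Metric.ball c R, σ - δ < w.re ∧ |w.im - z.im| < 2 ∧ 1 ≤ w.im := by
    intro w hw
    rw [Metric.mem_ball, dist_eq_norm] at hw
    have h1 := (Complex.abs_re_le_norm (w - c)).trans_lt hw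
    have h2 := (Complex.abs_im_le_norm (w - c)).trans_lt hw
    rw [Complex.sub_re] at h1
    rw [Complex.sub_im] at h2
    have h3 : c.im = z.im := rfl
    rw [hcre] at h1
    rw [h3] at h2
    have h4 := abs_lt.1 h1
    have h5 := abs_lt.1 h2
    exact ⟨by linarith [h4.1], by linarith, by linarith [h5.1]⟩
  have hne : ∀ w ∈ Metric.ball c R, riemannZeta w ≠ 0 := by
    intro w hw h0
    obtain ⟨h1, h2, -⟩ := hgood w hw
    linarith [hfree w h0 h1]
  have han : AnalyticOnNhd ℂ riemannZeta (Metric.ball c R) := fun w hw =>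
    DH31.zeta_analyticAt (by linarith [(hgood w hw).2.2])
  have hR1 : 1 ≤ R := by linarith
  have hR2 : R ≤ 3 / 2 := by linarith
  obtain ⟨h, hhd, hhc, hhe⟩ := DH31.exists_log (by linarith : 0 < R) han hne
  obtain ⟨hc1, hc2⟩ := hA c (by rw [hcre]; norm_num)
  have hcpos : 0 < ‖riemannZeta c‖ := lt_of_lt_of_le (by positivity) hc2
  have hcne : riemannZeta c ≠ 0 := norm_pos_iff.1 hcpos
  have hAc : 1 ≤ A * ‖riemannZeta c‖ := by
    rw [div_le_iff₀ hA0] at hc2
    linarith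
  -- first bound
  have hb1 : ∀ w ∈ Metric.closedBall c (3 / 4), ‖h w‖ ≤ m := by
    intro w hw
    refine (DH31.bc_log (g := riemannZeta) (h := h) (c := c) (r := R) (r' := 7 / 8) (r1 := 3 / 4)
      (B := 2 * Real.log A) (by norm_num) (by norm_num) (by linarith) (by positivity) hcne hhd hhc
      hhe ?_ hw).trans (le_of_eq (by rw [hm]; ring))
    intro v hv
    have h1 := (center_re_im (Metric.ball_subset_closedBall hv)).1
    have h2 := (hA v (by linarith)).1
    have h3 : Real.exp (2 * Real.log A) = A * A := by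
      rw [two_mul, Real.exp_add, Real.exp_log hA0]
    rw [h3]
    exact ee1 h2 hAc hA0
  -- second bound
  have hb2 : ∀ w ∈ Metric.closedBall c (R - δ / 2), ‖h w‖ ≤ 12 / δ * (2 * L + Real.log A + 1) := by
    intro w hw
    have h0 := DH31.bc_log (g := riemannZeta) (h := h) (c := c) (r := R) (r' := R - δ / 4)
      (r1 := R - δ / 2) (B := 2 * L + Real.log A) (by linarith) (by linarith) (by linarith)
      (by positivity) hcne hhd hhc hhe (by
        intro v hv
        obtain ⟨h1, h2, h3⟩ := hgood v (Metric.ball_subset_ball (by linarith) hv)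
        obtain ⟨k1, k2, k3⟩ := center_re_im (Metric.ball_subset_closedBall hv)
        have h4 := Pool.Agent.H388LH.zeta_growth (s := v) (by linarith) h3
        have h5 : ‖v‖ ≤ T + 6 := by
          refine (Complex.norm_le_abs_re_add_abs_im v).trans ?_
          have k4 := (abs_le.1 k3).2
          rw [abs_of_nonneg (by linarith), abs_of_nonneg (by linarith)]
          linarith
        have h6 : Real.exp (2 * L + Real.log A) = T * T * A := by
          rw [two_mul, Real.exp_add, Real.exp_add, Real.exp_log hA0, hL, Real.exp_log hT0]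
        rw [h6, mul_assoc]
        have h7 : 6 * (T + 6) ≤ T * T := ee2 hT10
        have h8 : T * T ≤ T * T * (A * ‖riemannZeta c‖) :=
          le_mul_of_one_le_right (mul_nonneg hT0.le hT0.le) hAc
        linarith) hw
    refine h0.trans ?_
    have h1 : R - δ / 4 - (R - δ / 2) = δ / 4 := by ring
    rw [h1, div_le_iff₀ (by positivity)]
    have h2 : 12 / δ * (2 * L + Real.log A + 1) * (δ / 4) = 3 * (2 * L + Real.log A + 1) := by
      field_simp
      ring
    rw [h2]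
    have h3 : 0 ≤ 2 * L + Real.log A + 1 := by positivity
    exact ee3 h3 hR2 hδ
  -- three circles
  have hzc : ‖z - c‖ ≤ R - δ := by
    have h1 : z - c = (((z.re - 2 : ℝ)) : ℂ) := by
      apply Complex.ext
      · simp [hc]
      · simp [hc]
    rw [h1, Complex.norm_real, Real.norm_eq_abs, abs_of_nonpos (by linarith)]
    linarith
  have key := DH31.circle_bound (f := h) (c := c) (z := z) (r := R - δ) (s0 := 3 / 4)
    (s := R - δ / 2) (R := R) (m := m) (M := 12 / δ * (2 * L + Real.log A + 1)) (by norm_num)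
    (by linarith) (by linarith) (by linarith) (by linarith) (by linarith) hhd
    (fun w hw => hb1 w (Metric.sphere_subset_closedBall hw))
    (fun w hw => hb2 w (Metric.sphere_subset_closedBall hw)) hzc K
  have hs0 : 0 < R - δ / 2 := by linarith
  have h1 : δ / 3 ≤ 1 - (R - δ) / (R - δ / 2) := by
    rw [le_sub_iff_add_le, ← le_sub_iff_add_le', div_le_iff₀ hs0]
    exact ee4 hR2 hδ
  have h2 : ((R - δ) / (R - δ / 2)) ^ K ≤ (1 - δ / 3) ^ K :=
    pow_le_pow_left₀ (div_nonneg (by linarith) hs0.le) (by linarith) K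
  have ht1 : m * ∑ n ∈ Finset.range K, ((R - δ) / (3 / 4)) ^ n ≤ m * (K * 2 ^ K) := by
    apply mul_le_mul_of_nonneg_left _ hm0.le
    calc _ ≤ ∑ n ∈ Finset.range K, (2 : ℝ) ^ K := by
          refine Finset.sum_le_sum fun n hn => ?_
          rw [Finset.mem_range] at hn
          calc ((R - δ) / (3 / 4)) ^ n ≤ 2 ^ n :=
                pow_le_pow_left₀ (div_nonneg (by linarith) (by norm_num))
                  (by rw [div_le_iff₀ (by norm_num)]; linarith) n
            _ ≤ 2 ^ K := pow_le_pow_right₀ (by norm_num) hn.le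
      _ = _ := by rw [Finset.sum_const, Finset.card_range, nsmul_eq_mul]
  have ht2 : 12 / δ * (2 * L + Real.log A + 1) * ((R - δ) / (R - δ / 2)) ^ K /
      (1 - (R - δ) / (R - δ / 2)) ≤ η / 4 * L + 36 / δ ^ 2 * (Real.log A + 1) := by
    have h3 : 0 ≤ 2 * L + Real.log A + 1 := by positivity
    have hpk : 0 ≤ (1 - δ / 3) ^ K := by positivity
    have hpk1 : (1 - δ / 3) ^ K ≤ 1 := pow_le_one₀ hq0 (by linarith)
    rw [div_le_iff₀ (by linarith)]
    calc 12 / δ * (2 * L + Real.log A + 1) * ((R - δ) / (R - δ / 2)) ^ K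
        ≤ 12 / δ * (2 * L + Real.log A + 1) * (1 - δ / 3) ^ K := by gcongr
      _ = ((1 - δ / 3) ^ K * (72 / δ ^ 2) * L + (1 - δ / 3) ^ K * (36 / δ ^ 2 * (Real.log A + 1))) *
          (δ / 3) := by field_simp; ring
      _ ≤ (η / 4 * L + 1 * (36 / δ ^ 2 * (Real.log A + 1))) * (δ / 3) := by gcongr
      _ ≤ _ := by
          rw [one_mul]
          exact mul_le_mul_of_nonneg_left h1 (by positivity)
  have hfin : ‖h z‖ ≤ η / 4 * L + (C - Real.log A) := by
    rw [hC]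
    linarith
  have hzb : z ∈ Metric.ball c R := by
    rw [Metric.mem_ball, dist_eq_norm]
    linarith
  refine ⟨hne z hzb, ?_⟩
  rw [hhe z hzb, norm_inv, norm_mul, Complex.norm_exp, Real.rpow_def_of_pos hT0, ← hL]
  have h4 : (‖riemannZeta c‖ * Real.exp (h z).re)⁻¹ = ‖riemannZeta c‖⁻¹ * Real.exp (-(h z).re) := by
    rw [mul_inv, Real.exp_neg]
  rw [h4]
  have h5 : ‖riemannZeta c‖⁻¹ ≤ Real.exp (Real.log A) := by
    rw [Real.exp_log hA0, inv_le_comm₀ hcpos hA0, ← one_div]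
    exact hc2
  have h6 : -(h z).re ≤ ‖h z‖ := (neg_le_abs _).trans (Complex.abs_re_le_norm _)
  calc ‖riemannZeta c‖⁻¹ * Real.exp (-(h z).re) ≤ Real.exp (Real.log A) * Real.exp ‖h z‖ :=
        mul_le_mul h5 (Real.exp_le_exp.2 h6) (Real.exp_pos _).le (Real.exp_pos _).le
    _ = Real.exp (Real.log A + ‖h z‖) := by rw [Real.exp_add]
    _ ≤ _ := by
        apply Real.exp_le_exp.2
        have h7 : 0 ≤ η * L := by positivity
        linarith

/-- **The local bound for the Moebius polynomials.** -/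
theorem local_bound {δ ε A : ℝ} (hδ : 0 < δ) (hδ1 : δ ≤ 1 / 4) (hε : 0 < ε) (hA : 0 < A) :
    ∃ T0 : ℝ, 3 ≤ T0 ∧ ∀ T : ℝ, T0 ≤ T → ∀ σ : ℝ, 1 / 2 + δ ≤ σ → σ ≤ 1 → ∀ t : ℝ,
      Real.log T + 5 ≤ t → t ≤ T →
      (∀ ρ : ℂ, riemannZeta ρ = 0 → σ - δ < ρ.re → Real.log T + 2 ≤ |ρ.im - t|) →
      ∀ u : ℝ, 0 ≤ u → u ≤ A * Real.log T → ‖D u t‖ ≤ T ^ ε * Real.exp (σ * u) := by
  obtain ⟨C, hC, hw⟩ := window_bound
  obtain ⟨T1, hT13, h1⟩ := inv_zeta_bound hδ hδ1 (show 0 < ε / 4 by positivity)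
  obtain ⟨T2, -, h2⟩ := ev_small one_pos (16 * A)
  obtain ⟨T3, -, h3⟩ := ev_small (show 0 < ε / 2 by positivity) (2 * C)
  refine ⟨max T1 (max T2 T3), hT13.trans (le_max_left _ _), ?_⟩
  intro T hT σ hσ hσ1 t ht htT hfree u hu huA
  have hTT1 : T1 ≤ T := (le_max_left _ _).trans hT
  have hTT2 : T2 ≤ T := (le_max_left _ _).trans ((le_max_right _ _).trans hT)
  have hTT3 : T3 ≤ T := (le_max_right _ _).trans ((le_max_right _ _).trans hT)
  obtain ⟨hL1, hL16, hLT⟩ := h2 T hTT2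
  obtain ⟨-, hLC, -⟩ := h3 T hTT3
  have hT3 : 3 ≤ T := hT13.trans hTT1
  have hT0 : 0 < T := by linarith
  set L := Real.log T with hL
  have hTsq : T ≤ T * T := (ee5 hT3).1
  have hT2T : 2 * T ≤ T * T := (ee5 hT3).2
  have hpow : (T * T) ^ (ε / 4) = T ^ (ε / 2) := by
    rw [Real.mul_rpow hT0.le hT0.le, ← Real.rpow_add hT0]
    congr 1
    ring
  have hE1 : 1 ≤ T ^ (ε / 2) := Real.one_le_rpow (by linarith) (by positivity)
  have key := hw u hu t L σ (T ^ (ε / 2)) (by linarith) hσ1 (by linarith) (by linarith) hE1 (by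
    intro z hz1 hz2 hz3
    have h4 := abs_le.1 hz3
    rw [← hpow]
    refine h1 (T * T) (by linarith) σ hσ hσ1 z hz1 hz2 (by linarith [h4.1]) (by linarith [h4.2]) ?_
    intro ρ hρ hρσ
    have h5 := hfree ρ hρ hρσ
    have h6 : |ρ.im - t| ≤ |ρ.im - z.im| + |z.im - t| := abs_sub_le _ _ _
    linarith)
  refine key.trans ?_
  have h5 : Real.exp (2 * u - L ^ 2 / 8) ≤ Real.exp (σ * u) := by
    apply Real.exp_le_exp.2
    have h6 : 2 * u ≤ L ^ 2 / 8 := ee6 huA (by linarith) (by linarith)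
    have h7 : 0 ≤ σ * u := mul_nonneg (by linarith) hu
    linarith
  have h6 : 2 * C ≤ T ^ (ε / 2) := by
    rw [Real.rpow_def_of_pos hT0]
    have := Real.add_one_le_exp (Real.log T * (ε / 2))
    rw [← hL] at this ⊢
    linarith
  have h8 : T ^ ε = T ^ (ε / 2) * T ^ (ε / 2) := by
    rw [← Real.rpow_add hT0]
    congr 1
    ring
  rw [h8]
  have h9 : 0 < Real.exp (σ * u) := Real.exp_pos _
  calc C * T ^ (ε / 2) * (Real.exp (σ * u) + Real.exp (2 * u - L ^ 2 / 8))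
      ≤ C * T ^ (ε / 2) * (Real.exp (σ * u) + Real.exp (σ * u)) := by gcongr
    _ = (2 * C) * (T ^ (ε / 2) * Real.exp (σ * u)) := by ring
    _ ≤ T ^ (ε / 2) * (T ^ (ε / 2) * Real.exp (σ * u)) := by gcongr
    _ = _ := by ring

end

end Pool.Agent.R305.MV
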