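import Pool.Agent.R305.MV.C
import Pool.Agent.R305.MV.E
set_option autoImplicit false
set_option maxHeartbeats 1000000

/-!
Zero-density estimates are equivalent to bounds for the measure of the large values of the
Moebius polynomials.
-/

open Complex Filter Topology MeasureTheory Set

namespace Pool.Agent.R305.MV

noncomputable section

/-- number of zeros -/
def N (σ T : ℝ) : ℕ := DH31.cnt (DH31.zeros σ T)

/-- zero-density estimate with exponent `a` -/
def Dens (a : ℝ → ℝ) : Prop := ∀ ε : ℝ, 0 < ε → ∃ C T₀ : ℝ, ∀ T : ℝ, T₀ ≤ T → ∀ σ : ℝ,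
  1 / 2 ≤ σ → σ ≤ 1 → (N σ T : ℝ) ≤ C * T ^ (a σ + ε)

/-- the heights with large values -/
def LV (A ε σ T : ℝ) : Set ℝ := {t : ℝ | (0 ≤ t ∧ t ≤ T) ∧ ∃ u : ℝ, 0 ≤ u ∧ u ≤ A * Real.log T ∧
  T ^ ε * Real.exp (σ * u) < ‖D u t‖}

/-- large value estimate with exponent `a` -/
def Large (a : ℝ → ℝ) : Prop := ∀ A ε : ℝ, 0 < A → 0 < ε → ∃ C T₀ : ℝ, ∀ T : ℝ, T₀ ≤ T → ∀ σ : ℝ,
  1 / 2 ≤ σ → σ ≤ 1 → (volume (LV A ε σ T)).toReal ≤ C * T ^ (a σ + ε)

/-- large value estimate with exponent `a` and threshold `T ^ B` -/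
def LargeB (a : ℝ → ℝ) (B : ℝ) : Prop := ∀ A ε : ℝ, 0 < A → 0 < ε → ∃ C T₀ : ℝ, ∀ T : ℝ, T₀ ≤ T →
  ∀ σ : ℝ, 1 / 2 ≤ σ → σ ≤ 1 → (volume (LV A B σ T)).toReal ≤ C * T ^ (a σ + ε)

lemma LV_subset (A ε σ T : ℝ) : LV A ε σ T ⊆ Icc 0 T := fun _ ht => ht.1

lemma LV_lt_top (A ε σ T : ℝ) : volume (LV A ε σ T) < ⊤ :=
  lt_of_le_of_lt (measure_mono (LV_subset A ε σ T)) (by rw [Real.volume_Icc]; exact ENNReal.ofReal_lt_top)

lemma LV_le (A ε σ : ℝ) {T : ℝ} (hT : 0 ≤ T) : (volume (LV A ε σ T)).toReal ≤ T := by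
  have h := measure_mono (μ := volume) (LV_subset A ε σ T)
  rw [Real.volume_Icc, sub_zero] at h
  exact ENNReal.toReal_le_of_le_ofReal hT h

lemma card_zeros_le (σ T : ℝ) : (DH31.zeros_finite σ T).toFinset.card ≤ N σ T := by
  unfold N
  rw [DH31.cnt_eq (DH31.zeros_finite σ T), Finset.card_eq_sum_ones]
  refine Finset.sum_le_sum fun s hs => ?_
  rw [Set.Finite.mem_toFinset] at hs
  exact H370.Loc.mult_pos' H370.good_zeta hs.2.2.1 hs.1

lemma absorb {κ : ℝ} (hκ : 0 < κ) : ∃ K : ℝ, 1 ≤ K ∧ ∀ T : ℝ, 1 ≤ T →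
    Real.log T + 10 ≤ K * T ^ κ := by
  refine ⟨1 / κ + 10, ?_, fun T hT => ?_⟩
  · have : 0 < 1 / κ := by positivity
    linarith
  · have h1 := Real.log_le_rpow_div (by linarith : 0 ≤ T) hκ
    have h2 : 1 ≤ T ^ κ := Real.one_le_rpow hT hκ.le
    calc Real.log T + 10 ≤ T ^ κ / κ + 10 * T ^ κ := by linarith
      _ = _ := by ring

/-- measure of finite unions of intervals -/
lemma vol_union_le {Z : Finset ℂ} {r : ℝ} :
    volume (⋃ ρ ∈ Z, Icc (ρ.im - r) (ρ.im + r)) ≤ ENNReal.ofReal (Z.card * (2 * r)) := by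
  refine (measure_biUnion_finset_le Z _).trans ?_
  have h1 : ∀ ρ : ℂ, volume (Icc (ρ.im - r) (ρ.im + r)) = ENNReal.ofReal (2 * r) := by
    intro ρ
    rw [Real.volume_Icc]
    congr 1
    ring
  rw [Finset.sum_congr rfl fun ρ _ => h1 ρ, Finset.sum_const, nsmul_eq_mul,
    ENNReal.ofReal_mul (p := (Z.card : ℝ)) (by positivity), ENNReal.ofReal_natCast]

theorem dens_to_large (a : ℝ → ℝ) (ha : ContinuousOn a (Icc (1 / 2) 1)) (ha1 : 1 ≤ a (1 / 2))
    (ha0 : ∀ σ ∈ Icc (1 / 2 : ℝ) 1, 0 ≤ a σ) (h : Dens a) : Large a := by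
  intro A ε hA hε
  have huc := isCompact_Icc.uniformContinuousOn_of_continuous ha
  rw [Metric.uniformContinuousOn_iff] at huc
  obtain ⟨δ0, hδ0, hδ2⟩ := huc (ε / 8) (by linarith)
  obtain ⟨M, hM⟩ := isCompact_Icc.exists_bound_of_continuousOn ha
  have hM' : ∀ σ ∈ Icc (1 / 2 : ℝ) 1, a σ ≤ M := fun σ hσ => (le_abs_self _).trans (hM σ hσ)
  have hM0 : 0 ≤ M := (norm_nonneg _).trans (hM (1 / 2) (by constructor <;> norm_num))
  set δ : ℝ := min (δ0 / 4) (1 / 8) with hδdef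
  have hδ : 0 < δ := lt_min (by positivity) (by norm_num)
  have hδ1 : δ ≤ 1 / 4 := (min_le_right _ _).trans (by norm_num)
  have hδδ : 2 * δ < δ0 := by
    have : δ ≤ δ0 / 4 := min_le_left _ _
    linarith
  obtain ⟨T1, hT13, h1⟩ := local_bound hδ hδ1 hε hA
  obtain ⟨C2, T2, h2⟩ := h (ε / 8) (by linarith)
  obtain ⟨K, hK, h3⟩ := absorb (show 0 < ε / 2 by positivity)
  refine ⟨1 + (K + |C2| * 3 ^ (M + ε) * (2 * K)), max T1 T2, ?_⟩
  intro T hT σ hσ hσ1
  have hTT1 : T1 ≤ T := (le_max_left _ _).trans hT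
  have hTT2 : T2 ≤ T := (le_max_right _ _).trans hT
  have hT3 : 3 ≤ T := hT13.trans hTT1
  have hT0 : 0 < T := by linarith
  have hσI : σ ∈ Icc (1 / 2 : ℝ) 1 := ⟨hσ, hσ1⟩
  have haσ := ha0 σ hσI
  have hp0 : 0 < T ^ (a σ + ε) := by positivity
  have hB : 0 ≤ K + |C2| * 3 ^ (M + ε) * (2 * K) := by positivity
  rcases lt_or_ge σ (1 / 2 + 2 * δ) with hc | hc
  · have e4 : dist (a σ) (a (1 / 2)) < ε / 8 := by
      apply hδ2 σ hσI (1 / 2) ⟨le_rfl, by norm_num⟩
      rw [Real.dist_eq, abs_of_nonneg (by linarith)]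
      linarith
    rw [Real.dist_eq] at e4
    have e5 := (abs_lt.1 e4).1
    have e6 : T ≤ T ^ (a σ + ε) := by
      calc T = T ^ (1 : ℝ) := (Real.rpow_one T).symm
        _ ≤ _ := Real.rpow_le_rpow_of_exponent_le (by linarith) (by linarith)
    calc _ ≤ T := LV_le A ε σ hT0.le
      _ ≤ 1 * T ^ (a σ + ε) := by rw [one_mul]; exact e6
      _ ≤ _ := by gcongr; linarith
  · have hσ' : σ - δ ∈ Icc (1 / 2 : ℝ) 1 := ⟨by linarith, by linarith⟩
    have hL0 : 0 ≤ Real.log T := Real.log_nonneg (by linarith)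
    have hLT : Real.log T ≤ T := (Real.log_le_sub_one_of_pos hT0).trans (by linarith)
    set L := Real.log T with hL
    set Zf := (DH31.zeros_finite (σ - δ) (3 * T)).toFinset with hZf
    have hsub : LV A ε σ T ⊆ Icc 0 (L + 5) ∪ ⋃ ρ ∈ Zf, Icc (ρ.im - (L + 2)) (ρ.im + (L + 2)) := by
      intro t ht
      obtain ⟨⟨ht0, htT⟩, u, hu0, huA, hu⟩ := ht
      rcases le_or_gt t (L + 5) with htL | htL
      · exact Or.inl ⟨ht0, htL⟩
      · right
        by_contra hcon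
        have hfree : ∀ ρ : ℂ, riemannZeta ρ = 0 → σ - δ < ρ.re → L + 2 ≤ |ρ.im - t| := by
          intro ρ hρ hρσ
          by_contra hlt
          push Not at hlt
          apply hcon
          have h4 := abs_lt.1 hlt
          simp only [Set.mem_iUnion]
          refine ⟨ρ, ?_, ⟨by linarith [h4.2], by linarith [h4.1]⟩⟩
          rw [hZf, Set.Finite.mem_toFinset]
          exact ⟨hρ, hρσ.le, by linarith [h4.1], by linarith [h4.2]⟩
        have h5 := h1 T hTT1 σ (by linarith) hσ1 t htL.le htT hfree u hu0 huA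
        linarith
    have hvol : volume (LV A ε σ T) ≤ ENNReal.ofReal ((L + 5) + Zf.card * (2 * (L + 2))) := by
      refine (measure_mono hsub).trans ((measure_union_le _ _).trans ?_)
      rw [ENNReal.ofReal_add (by linarith) (by positivity)]
      refine add_le_add ?_ vol_union_le
      rw [Real.volume_Icc, sub_zero]
    have hvol2 := ENNReal.toReal_le_of_le_ofReal (by positivity) hvol
    have e1 : (Zf.card : ℝ) ≤ |C2| * 3 ^ (M + ε) * T ^ (a σ + ε / 4) := by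
      have e2 : (Zf.card : ℝ) ≤ N (σ - δ) (3 * T) := by exact_mod_cast card_zeros_le _ _
      have e3 := h2 (3 * T) (by linarith) (σ - δ) hσ'.1 hσ'.2
      have e4 : dist (a (σ - δ)) (a σ) < ε / 8 := by
        apply hδ2 _ hσ' σ hσI
        rw [Real.dist_eq, abs_sub_comm, abs_of_nonneg (by linarith)]
        linarith
      rw [Real.dist_eq] at e4
      have e6 := (abs_lt.1 e4).2
      calc (Zf.card : ℝ) ≤ C2 * (3 * T) ^ (a (σ - δ) + ε / 8) := e2.trans e3
        _ ≤ |C2| * (3 * T) ^ (a σ + ε / 4) := by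
            apply mul_le_mul (le_abs_self _) _ (by positivity) (abs_nonneg _)
            exact Real.rpow_le_rpow_of_exponent_le (by linarith) (by linarith)
        _ = |C2| * (3 ^ (a σ + ε / 4) * T ^ (a σ + ε / 4)) := by
            rw [Real.mul_rpow (by norm_num) hT0.le]
        _ ≤ |C2| * (3 ^ (M + ε) * T ^ (a σ + ε / 4)) := by
            gcongr
            · norm_num
            · exact hM' σ hσI
            · linarith
        _ = _ := by ring
    have e7 : L + 10 ≤ K * T ^ (ε / 2) := h3 T (by linarith)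
    have e8 : T ^ (ε / 2) ≤ T ^ (a σ + ε) :=
      Real.rpow_le_rpow_of_exponent_le (by linarith) (by linarith)
    have e9 : T ^ (a σ + ε / 4) * T ^ (ε / 2) ≤ T ^ (a σ + ε) := by
      rw [← Real.rpow_add hT0]
      exact Real.rpow_le_rpow_of_exponent_le (by linarith) (by linarith)
    calc (volume (LV A ε σ T)).toReal ≤ (L + 5) + Zf.card * (2 * (L + 2)) := hvol2
      _ ≤ K * T ^ (ε / 2) + (|C2| * 3 ^ (M + ε) * T ^ (a σ + ε / 4)) * (2 * (K * T ^ (ε / 2))) := by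
          have i1 : L + 5 ≤ K * T ^ (ε / 2) := by linarith
          have i2 : 2 * (L + 2) ≤ 2 * (K * T ^ (ε / 2)) := by linarith
          exact add_le_add i1 (mul_le_mul e1 i2 (by linarith) (by positivity))
      _ = K * T ^ (ε / 2) + |C2| * 3 ^ (M + ε) * (2 * K) * (T ^ (a σ + ε / 4) * T ^ (ε / 2)) := by
          ring
      _ ≤ K * T ^ (a σ + ε) + |C2| * 3 ^ (M + ε) * (2 * K) * T ^ (a σ + ε) := by
          gcongr
      _ ≤ _ := by linarith

lemma card_le_vol {S : Finset ℕ} {E : Set ℝ} (h : ∀ n ∈ S, Ioc (n : ℝ) (n + 1) ⊆ E) :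
    (S.card : ENNReal) ≤ volume E := by
  have h1 : volume (⋃ n ∈ S, Ioc (n : ℝ) (n + 1)) = S.card := by
    rw [measure_biUnion_finset]
    · have : ∀ n ∈ S, volume (Ioc (n : ℝ) (n + 1)) = 1 := by
        intro n _
        rw [Real.volume_Ioc]
        simp
      rw [Finset.sum_congr rfl this]
      simp
    · intro m _ n _ hmn
      rw [Function.onFun, Set.disjoint_left]
      intro x hx hy
      apply hmn
      have e1 : (m : ℝ) < n + 1 := lt_of_lt_of_le hx.1 hy.2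
      have e2 : (n : ℝ) < m + 1 := lt_of_lt_of_le hy.1 hx.2
      have e3 : m < n + 1 := by exact_mod_cast e1
      have e4 : n < m + 1 := by exact_mod_cast e2
      omega
    · exact fun n _ => measurableSet_Ioc
  rw [← h1]
  refine measure_mono ?_
  intro x hx
  simp only [Set.mem_iUnion] at hx
  obtain ⟨n, hn, hx⟩ := hx
  exact h n hn hx

/-- the threshold -/
theorem large_to_largeB {a : ℝ → ℝ} {B : ℝ} (hB : 0 < B) (h : Large a) : LargeB a B := by
  intro A ε hA hε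
  obtain ⟨C, T0, hC⟩ := h A (min ε B) hA (lt_min hε hB)
  refine ⟨|C|, max T0 1, fun T hT σ hσ hσ1 => ?_⟩
  have h1 : T0 ≤ T := (le_max_left _ _).trans hT
  have h2 : 1 ≤ T := (le_max_right _ _).trans hT
  have h3 : LV A B σ T ⊆ LV A (min ε B) σ T := by
    rintro t ⟨ht, u, hu0, huA, hu⟩
    refine ⟨ht, u, hu0, huA, lt_of_le_of_lt ?_ hu⟩
    apply mul_le_mul_of_nonneg_right _ (Real.exp_pos _).le
    exact Real.rpow_le_rpow_of_exponent_le h2 (min_le_right _ _)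
  have h4 := ENNReal.toReal_mono (LV_lt_top A (min ε B) σ T).ne (measure_mono h3)
  refine h4.trans ((hC T h1 σ hσ hσ1).trans ?_)
  apply mul_le_mul (le_abs_self _) _ (by positivity) (abs_nonneg _)
  exact Real.rpow_le_rpow_of_exponent_le h2 (by
    have := min_le_left ε B
    linarith)

theorem largeB_to_dens (a : ℝ → ℝ) (ha : ContinuousOn a (Icc (1 / 2) 1)) (ha1 : 1 ≤ a (1 / 2))
    (ha0 : ∀ σ ∈ Icc (1 / 2 : ℝ) 1, 0 ≤ a σ) {B : ℝ} (hB : 0 ≤ B) (h : LargeB a B) : Dens a := by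
  classical
  intro ε hε
  have huc := isCompact_Icc.uniformContinuousOn_of_continuous ha
  rw [Metric.uniformContinuousOn_iff] at huc
  obtain ⟨δ0, hδ0, hδ2⟩ := huc (ε / 8) (by linarith)
  obtain ⟨M, hM⟩ := isCompact_Icc.exists_bound_of_continuousOn ha
  have hM' : ∀ σ ∈ Icc (1 / 2 : ℝ) 1, a σ ≤ M := fun σ hσ => (le_abs_self _).trans (hM σ hσ)
  have hM0 : 0 ≤ M := (norm_nonneg _).trans (hM (1 / 2) (by constructor <;> norm_num))
  set δ : ℝ := min (δ0 / 2) (1 / 2) with hδdef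
  have hδ : 0 < δ := lt_min (by positivity) (by norm_num)
  have hδ1 : δ ≤ 1 / 2 := min_le_right _ _
  have hδδ : δ < δ0 := by
    have : δ ≤ δ0 / 2 := min_le_left _ _
    linarith
  obtain ⟨A, hA, T1, h1⟩ := detect hδ hδ1 hB
  obtain ⟨C2, T2, h2⟩ := h A (ε / 8) hA (by positivity)
  obtain ⟨C3, hC3, h3⟩ := DH31.windows_to_count
  obtain ⟨K, hK, h4⟩ := absorb (show 0 < ε / 2 by positivity)
  refine ⟨C3 + C3 * K * (2 + 7 + |C2| * 2 ^ (M + ε)), max (max T1 T2) 3, ?_⟩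
  intro T hT σ hσ hσ1
  have hTT1 : T1 ≤ T := ((le_max_left _ _).trans (le_max_left _ _)).trans hT
  have hTT2 : T2 ≤ T := ((le_max_right _ _).trans (le_max_left _ _)).trans hT
  have hT3 : 3 ≤ T := (le_max_right _ _).trans hT
  have hT0 : 0 < T := by linarith
  have hσI : σ ∈ Icc (1 / 2 : ℝ) 1 := ⟨hσ, hσ1⟩
  have haσ := ha0 σ hσI
  have hL0 : 0 ≤ Real.log T := Real.log_nonneg (by linarith)
  have hone : 1 ≤ T ^ (a σ + ε) := Real.one_le_rpow (by linarith) (by linarith)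
  have e7 : Real.log T ≤ K * T ^ (ε / 2) := by
    have := h4 T (by linarith)
    linarith
  have hzsub : DH31.zeros σ T ⊆ DH31.zeros (1 / 2) T :=
    fun ρ hρ => ⟨hρ.1, hσ.trans hρ.2.1, hρ.2.2.1, hρ.2.2.2⟩
  have hKp : 0 < K := by linarith
  -- the number of a window
  have hwin : ∀ ρ ∈ DH31.zeros σ T, (⌈ρ.im⌉₊ - 1) ∈ Finset.range (⌊T⌋₊ + 1) ∧
      (((⌈ρ.im⌉₊ - 1 : ℕ) : ℝ)) < ρ.im ∧ ρ.im ≤ ((⌈ρ.im⌉₊ - 1 : ℕ) : ℝ) + 1 := by
    intro ρ hρ
    have g1 : 0 < ⌈ρ.im⌉₊ := Nat.ceil_pos.2 hρ.2.2.1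
    have g2 : ((⌈ρ.im⌉₊ - 1 : ℕ) : ℝ) = (⌈ρ.im⌉₊ : ℝ) - 1 := by
      rw [Nat.cast_sub (by omega)]
      simp
    have g3 := Nat.ceil_lt_add_one hρ.2.2.1.le
    have g4 := Nat.le_ceil ρ.im
    refine ⟨?_, by rw [g2]; linarith, by rw [g2]; linarith⟩
    rw [Finset.mem_range]
    have g5 : ((⌈ρ.im⌉₊ - 1 : ℕ) : ℝ) ≤ T := by
      rw [g2]
      linarith [hρ.2.2.2]
    have := Nat.le_floor g5
    omega
  rcases lt_or_ge σ (1 / 2 + δ) with hc | hc
  · have e4 : dist (a σ) (a (1 / 2)) < ε / 8 := by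
      apply hδ2 σ hσI (1 / 2) ⟨le_rfl, by norm_num⟩
      rw [Real.dist_eq, abs_of_nonneg (by linarith)]
      linarith
    rw [Real.dist_eq] at e4
    have e5 := (abs_lt.1 e4).1
    have e6 := h3 T hT3 (DH31.zeros σ T) hzsub (Finset.range (⌊T⌋₊ + 1)) (fun ρ hρ _ =>
      ⟨_, (hwin ρ hρ).1, (hwin ρ hρ).2⟩)
    rw [Finset.card_range] at e6
    have e8 : ((⌊T⌋₊ + 1 : ℕ) : ℝ) ≤ 2 * T := by
      push_cast
      have := Nat.floor_le hT0.le
      linarith
    have e9 : T * T ^ (ε / 2) ≤ T ^ (a σ + ε) := by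
      have : T * T ^ (ε / 2) = T ^ (1 + ε / 2) := by
        rw [Real.rpow_add hT0, Real.rpow_one]
      rw [this]
      exact Real.rpow_le_rpow_of_exponent_le (by linarith) (by linarith)
    calc (N σ T : ℝ) ≤ C3 + ((⌊T⌋₊ + 1 : ℕ) : ℝ) * (C3 * Real.log T) := e6
      _ ≤ C3 + (2 * T) * (C3 * (K * T ^ (ε / 2))) := by gcongr
      _ = C3 * 1 + C3 * K * 2 * (T * T ^ (ε / 2)) := by ring
      _ ≤ C3 * T ^ (a σ + ε) + C3 * K * 2 * T ^ (a σ + ε) := by gcongr
      _ ≤ _ := by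
          have : 0 ≤ C3 * K * (7 + |C2| * 2 ^ (M + ε)) * T ^ (a σ + ε) := by positivity
          linarith
  · have hσ' : σ - δ ∈ Icc (1 / 2 : ℝ) 1 := ⟨by linarith, by linarith⟩
    set P : ℕ → Prop := fun n => ∃ ρ ∈ DH31.zeros σ T, 6 ≤ ρ.im ∧ (n : ℝ) < ρ.im ∧ ρ.im ≤ n + 1 with hP
    set S1 : Finset ℕ := (Finset.range (⌊T⌋₊ + 1)).filter P with hS1
    have hcard : (S1.card : ENNReal) ≤ volume (LV A B (σ - δ) (T + 1)) := by
      refine card_le_vol fun n hn t ht => ?_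
      rw [hS1, Finset.mem_filter, Finset.mem_range] at hn
      obtain ⟨hn1, ρ, hρ, hρ6, hρn, hρn1⟩ := hn
      have hnT : (n : ℝ) ≤ T := by
        have : n ≤ ⌊T⌋₊ := by omega
        exact (Nat.le_floor_iff hT0.le).1 this
      have hn0 : (0 : ℝ) ≤ n := by positivity
      refine ⟨⟨by linarith [ht.1], by linarith [ht.2]⟩, ?_⟩
      refine h1 (T + 1) (by linarith) (σ - δ) hσ'.1 ρ hρ.1 (by linarith [hρ.2.1]) hρ6
        (by linarith [hρ.2.2.2]) t ?_
      rw [abs_le]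
      constructor
      · linarith [ht.1]
      · linarith [ht.2]
    have hcard2 : (S1.card : ℝ) ≤ (volume (LV A B (σ - δ) (T + 1))).toReal := by
      have := ENNReal.toReal_mono (LV_lt_top A B (σ - δ) (T + 1)).ne hcard
      rwa [ENNReal.toReal_natCast] at this
    have e3 := h2 (T + 1) (by linarith) (σ - δ) hσ'.1 hσ'.2
    have e4 : dist (a (σ - δ)) (a σ) < ε / 8 := by
      apply hδ2 _ hσ' σ hσI
      rw [Real.dist_eq, abs_sub_comm, abs_of_nonneg (by linarith)]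
      linarith
    rw [Real.dist_eq] at e4
    have e5 := (abs_lt.1 e4).2
    have e6 : (S1.card : ℝ) ≤ |C2| * 2 ^ (M + ε) * T ^ (a σ + ε / 4) := by
      calc (S1.card : ℝ) ≤ C2 * (T + 1) ^ (a (σ - δ) + ε / 8) := hcard2.trans e3
        _ ≤ |C2| * (T + 1) ^ (a (σ - δ) + ε / 8) := by
            apply mul_le_mul_of_nonneg_right (le_abs_self _) (by positivity)
        _ ≤ |C2| * (T + 1) ^ (a σ + ε / 4) := by
            apply mul_le_mul_of_nonneg_left _ (abs_nonneg _)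
            exact Real.rpow_le_rpow_of_exponent_le (by linarith) (by linarith)
        _ ≤ |C2| * (2 * T) ^ (a σ + ε / 4) := by
            apply mul_le_mul_of_nonneg_left _ (abs_nonneg _)
            exact Real.rpow_le_rpow (by linarith) (by linarith) (by linarith)
        _ = |C2| * (2 ^ (a σ + ε / 4) * T ^ (a σ + ε / 4)) := by
            rw [Real.mul_rpow (by norm_num) hT0.le]
        _ ≤ |C2| * (2 ^ (M + ε) * T ^ (a σ + ε / 4)) := by
            gcongr
            · norm_num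
            · exact hM' σ hσI
            · linarith
        _ = _ := by ring
    have e8 := h3 T hT3 (DH31.zeros σ T) hzsub (Finset.range 7 ∪ S1) (fun ρ hρ _ => by
      obtain ⟨g1, g2, g3⟩ := hwin ρ hρ
      refine ⟨_, ?_, g2, g3⟩
      rw [Finset.mem_union]
      rcases lt_or_ge ρ.im 6 with h6 | h6
      · left
        rw [Finset.mem_range]
        have : ((⌈ρ.im⌉₊ - 1 : ℕ) : ℝ) < (7 : ℕ) := by
          push_cast
          linarith
        exact_mod_cast this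
      · right
        rw [hS1, Finset.mem_filter]
        exact ⟨g1, ρ, hρ, h6, g2, g3⟩)
    have e9 : ((Finset.range 7 ∪ S1).card : ℝ) ≤ 7 + S1.card := by
      have := Finset.card_union_le (Finset.range 7) S1
      rw [Finset.card_range] at this
      exact_mod_cast this
    have i1 : T ^ (ε / 2) ≤ T ^ (a σ + ε) :=
      Real.rpow_le_rpow_of_exponent_le (by linarith) (by linarith)
    have i2 : T ^ (a σ + ε / 4) * T ^ (ε / 2) ≤ T ^ (a σ + ε) := by
      rw [← Real.rpow_add hT0]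
      exact Real.rpow_le_rpow_of_exponent_le (by linarith) (by linarith)
    calc (N σ T : ℝ) ≤ C3 + ((Finset.range 7 ∪ S1).card : ℝ) * (C3 * Real.log T) := e8
      _ ≤ C3 + (7 + |C2| * 2 ^ (M + ε) * T ^ (a σ + ε / 4)) * (C3 * (K * T ^ (ε / 2))) := by
          have j1 : ((Finset.range 7 ∪ S1).card : ℝ) ≤
            7 + |C2| * 2 ^ (M + ε) * T ^ (a σ + ε / 4) := by linarith
          gcongr
      _ = C3 * 1 + C3 * K * 7 * T ^ (ε / 2) +
          C3 * K * (|C2| * 2 ^ (M + ε)) * (T ^ (a σ + ε / 4) * T ^ (ε / 2)) := by ring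
      _ ≤ C3 * T ^ (a σ + ε) + C3 * K * 7 * T ^ (a σ + ε) +
          C3 * K * (|C2| * 2 ^ (M + ε)) * T ^ (a σ + ε) := by gcongr
      _ ≤ _ := by
          have : 0 ≤ C3 * K * 2 * T ^ (a σ + ε) := by positivity
          linarith

end

end Pool.Agent.R305.MV
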