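import Pool.Agent.R305.MV.F
set_option autoImplicit false
set_option maxHeartbeats 1000000

/-!
Large value estimates imply the moment bounds.
-/

open Complex Filter Topology MeasureTheory Set

namespace Pool.Agent.R305.MV

noncomputable section

/-- the exponent `c (1 - σ)` -/
def dh (c σ : ℝ) : ℝ := c * (1 - σ)

/-- the moment bounds -/
def Mom (c : ℝ) : Prop := ∀ q A ε : ℝ, 0 < q → 0 < A → 0 < ε → ∃ C T₀ : ℝ, ∀ T : ℝ, T₀ ≤ T →
  ∀ u : ℝ, 0 ≤ u → u ≤ A * Real.log T → ∫ t in (0 : ℝ)..T, ‖D u t‖ ^ q ≤
    C * T ^ ε * (T ^ (c / 2) * Real.exp (q * u / 2) + Real.exp (q * u))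

/-- the critical moment bound -/
def Crit (c q : ℝ) : Prop := ∀ ε : ℝ, 0 < ε → ∃ C u₀ : ℝ, ∀ u : ℝ, u₀ ≤ u →
  ∫ t in (0 : ℝ)..Real.exp (q * u / c), ‖D u t‖ ^ q ≤ C * Real.exp ((q + ε) * u)

lemma measurable_LV (A ε σ T : ℝ) : MeasurableSet (LV A ε σ T) := by
  have h : LV A ε σ T = Icc 0 T ∩ ⋃ u ∈ Icc 0 (A * Real.log T),
      {t : ℝ | T ^ ε * Real.exp (σ * u) < ‖D u t‖} := by
    ext t
    simp only [LV, Set.mem_ofPred_eq, Set.mem_inter_iff, Set.mem_Icc, Set.mem_iUnion, exists_prop]
    constructor
    · rintro ⟨h1, u, h2, h3, h4⟩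
      exact ⟨h1, u, ⟨h2, h3⟩, h4⟩
    · rintro ⟨h1, u, ⟨h2, h3⟩, h4⟩
      exact ⟨h1, u, h2, h3, h4⟩
  rw [h]
  refine measurableSet_Icc.inter (IsOpen.measurableSet ?_)
  refine isOpen_biUnion fun u _ => ?_
  exact isOpen_lt continuous_const (continuous_D_right u).norm

lemma interp {l L q u : ℝ} (hl0 : 0 ≤ l) (hl1 : l ≤ 1) :
    Real.exp (l * L + q * (1 - l / 2) * u) ≤
      Real.exp L * Real.exp (q * u / 2) + Real.exp (q * u) := by
  rw [← Real.exp_add]
  have h : l * L + q * (1 - l / 2) * u = l * (L + q * u / 2) + (1 - l) * (q * u) := by ring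
  rw [h]
  set a := L + q * u / 2
  set b := q * u
  have ea := Real.exp_pos a
  have eb := Real.exp_pos b
  rcases le_total a b with hab | hab
  · have : l * a + (1 - l) * b ≤ b := by nlinarith
    linarith [Real.exp_le_exp.2 this]
  · have : l * a + (1 - l) * b ≤ a := by nlinarith
    linarith [Real.exp_le_exp.2 this]

theorem large_to_mom {c : ℝ} (hc2 : 2 ≤ c) (h : Large (dh c)) : Mom c := by
  classical
  intro q A ε hq hA hε
  set ε' : ℝ := ε / (4 * (q + 1)) with hε'
  have hε'0 : 0 < ε' := by positivity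
  have hε'1 : ε' * (q + 1) = ε / 4 := by rw [hε']; field_simp
  obtain ⟨C2, T2, h2⟩ := h A ε' hA hε'0
  obtain ⟨n, hn⟩ := exists_nat_gt (max 1 (2 * A * q / ε))
  have hn1 : 1 < (n : ℝ) := lt_of_le_of_lt (le_max_left _ _) hn
  have hn2 : 2 * A * q / ε < n := lt_of_le_of_lt (le_max_right _ _) hn
  rw [div_lt_iff₀ hε] at hn2
  set η : ℝ := 1 / (2 * n) with hη
  have hη0 : 0 < η := by positivity
  have hnη : n * η = 1 / 2 := by rw [hη]; field_simp
  have hηA : q * η * A ≤ ε / 4 := by
    have : q * η * A = (2 * A * q) / (4 * n) := by rw [hη]; field_simp; ring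
    rw [this, div_le_iff₀ (by positivity)]
    linarith
  set a : ℝ := 1 + ε' / A with ha
  have ha1 : 1 < a := by
    have : 0 < ε' / A := by positivity
    linarith
  set C1 : ℝ := max 1 (Real.exp (a ^ 2 / 4) * Z a) with hC1
  have hC11 : 1 ≤ C1 := le_max_left _ _
  refine ⟨1 + (n + 1) * (|C2| * C1 ^ q), max T2 3, ?_⟩
  intro T hT u hu huA
  have hTT2 : T2 ≤ T := (le_max_left _ _).trans hT
  have hT3 : 3 ≤ T := (le_max_right _ _).trans hT
  have hT0 : 0 < T := by linarith
  set L := Real.log T with hL
  have hL0 : 0 ≤ L := Real.log_nonneg (by linarith)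
  have hTL : ∀ x : ℝ, T ^ x = Real.exp (L * x) := fun x => by
    rw [Real.rpow_def_of_pos hT0]
  have hTe : Real.exp L = T := Real.exp_log hT0
  -- trivial bound
  have htriv : ∀ t, ‖D u t‖ ≤ C1 * Real.exp (L * ε') * Real.exp u := by
    intro t
    refine (norm_D_le ha1 u t).trans ?_
    rw [Real.exp_add]
    have h1 : Real.exp (a * u) ≤ Real.exp (L * ε') * Real.exp u := by
      rw [← Real.exp_add]
      apply Real.exp_le_exp.2
      have : ε' / A * u ≤ ε' / A * (A * L) := by gcongr
      have h3 : ε' / A * (A * L) = L * ε' := by field_simp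
      rw [ha]
      linarith
    have hZ := Z_nonneg a
    calc Real.exp (a ^ 2 / 4) * Real.exp (a * u) * Z a =
        (Real.exp (a ^ 2 / 4) * Z a) * Real.exp (a * u) := by ring
      _ ≤ C1 * (Real.exp (L * ε') * Real.exp u) := by
          gcongr
          exact le_max_right _ _
      _ = _ := by ring
  set s : ℕ → ℝ := fun i => 1 / 2 + i * η with hs
  set w : ℕ → ℝ := fun i => (C1 * Real.exp (L * ε') * Real.exp ((s i + η) * u)) ^ q with hw
  set w0 : ℝ := (Real.exp (L * ε') * Real.exp (1 / 2 * u)) ^ q with hw0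
  have hwnn : ∀ i, 0 ≤ w i := fun i => by positivity
  have hw0nn : 0 ≤ w0 := by positivity
  have hpt : ∀ t ∈ Ioc 0 T, ‖D u t‖ ^ q ≤ w0 + ∑ i ∈ Finset.range (n + 1),
      (LV A ε' (s i) T).indicator (fun _ => w i) t := by
    intro t ht
    have hsum0 : 0 ≤ ∑ i ∈ Finset.range (n + 1), (LV A ε' (s i) T).indicator (fun _ => w i) t :=
      Finset.sum_nonneg fun i _ => Set.indicator_nonneg (fun _ _ => hwnn i) _
    set P : ℕ → Prop := fun i => Real.exp (L * ε') * Real.exp (s i * u) < ‖D u t‖ with hP
    by_cases hP0 : P 0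
    · set k := Nat.findGreatest P n with hk
      have hPk : P k := Nat.findGreatest_spec (P := P) (Nat.zero_le n) hP0
      have hkn : k ≤ n := Nat.findGreatest_le n
      have hmem : t ∈ LV A ε' (s k) T := by
        refine ⟨⟨ht.1.le, ht.2⟩, u, hu, huA, ?_⟩
        rw [hTL]
        exact hPk
      have hDk : ‖D u t‖ ≤ C1 * Real.exp (L * ε') * Real.exp ((s k + η) * u) := by
        rcases hkn.lt_or_eq with hlt | heq
        · have hnot : ¬ P (k + 1) := Nat.findGreatest_is_greatest (Nat.lt_succ_self k) hlt
          rw [hP] at hnot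
          simp only [not_lt] at hnot
          refine hnot.trans ?_
          have : s (k + 1) = s k + η := by simp only [hs]; push_cast; ring
          rw [this]
          have h5 : 0 ≤ Real.exp (L * ε') * Real.exp ((s k + η) * u) := by positivity
          calc _ ≤ C1 * (Real.exp (L * ε') * Real.exp ((s k + η) * u)) :=
                le_mul_of_one_le_left h5 hC11
            _ = _ := by ring
        · refine (htriv t).trans ?_
          have : 1 ≤ s k + η := by
            rw [heq]
            simp only [hs]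
            rw [hnη]
            linarith
          have h6 : u ≤ (s k + η) * u := le_mul_of_one_le_left hu this
          have h7 := Real.exp_le_exp.2 h6
          gcongr
      have h8 : (LV A ε' (s k) T).indicator (fun _ => w k) t ≤
          ∑ i ∈ Finset.range (n + 1), (LV A ε' (s i) T).indicator (fun _ => w i) t :=
        Finset.single_le_sum (f := fun i => (LV A ε' (s i) T).indicator (fun _ => w i) t)
          (fun i _ => Set.indicator_nonneg (fun _ _ => hwnn i) _)
          (Finset.mem_range.2 (by omega))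
      rw [Set.indicator_of_mem hmem] at h8
      have h9 : ‖D u t‖ ^ q ≤ w k := by
        simp only [hw]
        exact Real.rpow_le_rpow (norm_nonneg _) hDk hq.le
      linarith
    · rw [hP] at hP0
      simp only [not_lt] at hP0
      have h9 : ‖D u t‖ ^ q ≤ w0 := by
        rw [hw0]
        refine Real.rpow_le_rpow (norm_nonneg _) (hP0.trans (le_of_eq ?_)) hq.le
        simp only [hs]
        norm_num
      linarith
  -- integration
  have hcont : Continuous fun t => ‖D u t‖ ^ q :=
    (continuous_D_right u).norm.rpow_const fun _ => Or.inr hq.le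
  have hfin : IsFiniteMeasure (volume.restrict (Ioc 0 T)) :=
    ⟨by rw [Measure.restrict_apply_univ, Real.volume_Ioc]; exact ENNReal.ofReal_lt_top⟩
  have hint : ∀ i, Integrable (fun t => (LV A ε' (s i) T).indicator (fun _ => w i) t)
      (volume.restrict (Ioc 0 T)) := fun i =>
    (integrable_const (w i)).indicator (measurable_LV A ε' (s i) T)
  have hI : ∫ t in (0 : ℝ)..T, ‖D u t‖ ^ q ≤ T * w0 + ∑ i ∈ Finset.range (n + 1),
      (volume (LV A ε' (s i) T)).toReal * w i := by
    rw [intervalIntegral.integral_of_le hT0.le]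
    have h1 : ∫ t in Ioc 0 T, ‖D u t‖ ^ q ≤ ∫ t in Ioc 0 T, (w0 + ∑ i ∈ Finset.range (n + 1),
        (LV A ε' (s i) T).indicator (fun _ => w i) t) := by
      refine setIntegral_mono_on ?_ ?_ measurableSet_Ioc hpt
      · exact (hcont.integrableOn_Icc (a := 0) (b := T)).mono_set Ioc_subset_Icc_self
      · exact (integrable_const w0).add (integrable_finsetSum _ fun i _ => hint i)
    refine h1.trans ?_
    rw [integral_add (integrable_const w0) (integrable_finsetSum _ fun i _ => hint i),
      integral_finsetSum _ fun i _ => hint i]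
    have h2 : ∫ _ in Ioc 0 T, w0 = T * w0 := by
      rw [setIntegral_const, measureReal_def, Real.volume_Ioc, sub_zero,
        ENNReal.toReal_ofReal hT0.le, smul_eq_mul]
    rw [h2]
    gcongr with i hi
    rw [integral_indicator_const _ (measurable_LV A ε' (s i) T), smul_eq_mul]
    apply mul_le_mul_of_nonneg_right _ (hwnn i)
    rw [measureReal_def]
    exact ENNReal.toReal_mono (LV_lt_top A ε' (s i) T).ne (Measure.restrict_apply_le _ _)
  refine hI.trans ?_
  -- estimates
  set X : ℝ := T ^ (c / 2) * Real.exp (q * u / 2) + Real.exp (q * u) with hX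
  have hX0 : 0 ≤ X := by positivity
  have hεpow : T ^ ε = Real.exp (L * ε) := hTL ε
  have hεq : ε' * q ≤ ε / 4 := by linarith
  have hε4 : ε' ≤ ε / 4 := by
    have : 0 ≤ ε' * q := by positivity
    linarith
  have k0 : T * w0 ≤ T ^ ε * X := by
    have h1 : w0 = Real.exp (L * ε' * q) * Real.exp (q * u / 2) := by
      rw [hw0, Real.mul_rpow (Real.exp_pos _).le (Real.exp_pos _).le, ← Real.exp_mul,
        ← Real.exp_mul]
      congr 2
      ring
    rw [h1, hεpow]
    have h2 : Real.exp (L * ε' * q) ≤ Real.exp (L * ε) := by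
      apply Real.exp_le_exp.2
      have : L * (ε' * q) ≤ L * ε := by gcongr; linarith
      linarith
    calc T * (Real.exp (L * ε' * q) * Real.exp (q * u / 2)) ≤
        T * (Real.exp (L * ε) * Real.exp (q * u / 2)) := by gcongr
      _ = Real.exp (L * ε) * (T * Real.exp (q * u / 2)) := by ring
      _ ≤ Real.exp (L * ε) * X := by
          gcongr
          rw [hX]
          have h3 := Real.exp_pos (q * u)
          have h4 : T ≤ T ^ (c / 2) := by
            calc T = T ^ (1 : ℝ) := (Real.rpow_one T).symm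
              _ ≤ _ := Real.rpow_le_rpow_of_exponent_le (by linarith) (by linarith)
          have h5 : T * Real.exp (q * u / 2) ≤ T ^ (c / 2) * Real.exp (q * u / 2) := by gcongr
          linarith
  have k1 : ∀ i ∈ Finset.range (n + 1), (volume (LV A ε' (s i) T)).toReal * w i ≤
      |C2| * C1 ^ q * (T ^ ε * X) := by
    intro i hi
    rw [Finset.mem_range] at hi
    have hin : (i : ℝ) ≤ n := by exact_mod_cast Nat.lt_succ_iff.1 hi
    have hs1 : 1 / 2 ≤ s i := by
      simp only [hs]
      have : 0 ≤ (i : ℝ) * η := by positivity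
      linarith
    have hs2 : s i ≤ 1 := by
      simp only [hs]
      have : (i : ℝ) * η ≤ n * η := by gcongr
      linarith
    have h1 := h2 T hTT2 (s i) hs1 hs2
    have h3 : w i = C1 ^ q * (Real.exp (L * ε' * q) * Real.exp (q * (s i + η) * u)) := by
      simp only [hw]
      rw [Real.mul_rpow (by positivity) (Real.exp_pos _).le,
        Real.mul_rpow (by positivity) (Real.exp_pos _).le, ← Real.exp_mul, ← Real.exp_mul,
        mul_assoc]
      congr 3
      ring
    have h4 : (volume (LV A ε' (s i) T)).toReal ≤ |C2| * Real.exp (L * (dh c (s i) + ε')) := by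
      rw [hTL] at h1
      exact h1.trans (mul_le_mul_of_nonneg_right (le_abs_self _) (Real.exp_pos _).le)
    rw [h3, hεpow]
    have h5 : Real.exp (L * (dh c (s i) + ε')) *
        (Real.exp (L * ε' * q) * Real.exp (q * (s i + η) * u)) ≤ Real.exp (L * ε) * X := by
      have h6 := interp (l := 2 * (1 - s i)) (L := L * (c / 2)) (q := q) (u := u) (by linarith)
        (by linarith)
      rw [← hTL] at h6
      calc _ = Real.exp (L * (ε' + ε' * q) + q * η * u) *
            Real.exp (2 * (1 - s i) * (L * (c / 2)) + q * (1 - 2 * (1 - s i) / 2) * u) := by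
            rw [← Real.exp_add, ← Real.exp_add, ← Real.exp_add]
            congr 1
            unfold dh
            ring
        _ ≤ Real.exp (L * ε) * X := by
            apply mul_le_mul _ h6 (Real.exp_pos _).le (Real.exp_pos _).le
            apply Real.exp_le_exp.2
            have h7 : L * (ε' + ε' * q) ≤ L * (ε / 4 + ε / 4) := by gcongr
            have h8 : q * η * u ≤ q * η * (A * L) := by gcongr
            have h9 : q * η * A * L ≤ ε / 4 * L := by gcongr
            have h10 : 0 ≤ ε * L := by positivity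
            linarith
    calc _ ≤ (|C2| * Real.exp (L * (dh c (s i) + ε'))) *
          (C1 ^ q * (Real.exp (L * ε' * q) * Real.exp (q * (s i + η) * u))) := by gcongr
      _ = |C2| * C1 ^ q * (Real.exp (L * (dh c (s i) + ε')) *
          (Real.exp (L * ε' * q) * Real.exp (q * (s i + η) * u))) := by ring
      _ ≤ _ := by gcongr
  calc T * w0 + ∑ i ∈ Finset.range (n + 1), (volume (LV A ε' (s i) T)).toReal * w i
      ≤ T ^ ε * X + ∑ i ∈ Finset.range (n + 1), |C2| * C1 ^ q * (T ^ ε * X) :=
        add_le_add k0 (Finset.sum_le_sum k1)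
    _ = _ := by
        rw [Finset.sum_const, Finset.card_range, nsmul_eq_mul]
        push_cast
        ring

theorem mom_to_crit {c : ℝ} (hc2 : 2 ≤ c) (h : Mom c) {q : ℝ} (hq : 0 < q) : Crit c q := by
  intro ε hε
  have hc0 : 0 < c := by linarith
  obtain ⟨C, T0, hC⟩ := h q (c / q) (c * ε / q) hq (by positivity) (by positivity)
  refine ⟨2 * |C|, max 0 (c / q * Real.log (max T0 1)), fun u hu => ?_⟩
  have hu0 : 0 ≤ u := (le_max_left _ _).trans hu
  have hu1 : c / q * Real.log (max T0 1) ≤ u := (le_max_right _ _).trans hu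
  have hT : T0 ≤ Real.exp (q * u / c) := by
    refine (le_max_left T0 1).trans ?_
    rw [← Real.log_le_iff_le_exp (lt_of_lt_of_le one_pos (le_max_right _ _)), le_div_iff₀ hc0]
    rw [div_mul_eq_mul_div, div_le_iff₀ hq] at hu1
    linarith
  have h1 := hC (Real.exp (q * u / c)) hT u hu0 (by
    rw [Real.log_exp]
    apply le_of_eq
    field_simp)
  refine h1.trans ?_
  rw [← Real.exp_mul, ← Real.exp_mul]
  have e1 : q * u / c * (c * ε / q) = ε * u := by field_simp
  have e2 : q * u / c * (c / 2) = q * u / 2 := by field_simp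
  rw [e1, e2, ← Real.exp_add]
  have e3 : q * u / 2 + q * u / 2 = q * u := by ring
  rw [e3]
  calc C * Real.exp (ε * u) * (Real.exp (q * u) + Real.exp (q * u)) =
      2 * C * (Real.exp (ε * u) * Real.exp (q * u)) := by ring
    _ ≤ 2 * |C| * (Real.exp (ε * u) * Real.exp (q * u)) := by
        gcongr
        exact le_abs_self _
    _ = _ := by
        rw [← Real.exp_add]
        congr 2
        ring

end

end Pool.Agent.R305.MV
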