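import Pool.Agent.R305.MV.G
import Pool.Agent.H402R2.SubMean
set_option autoImplicit false
set_option maxHeartbeats 1000000

/-!
The moment bounds imply large value estimates.
-/

open Complex Filter Topology MeasureTheory Set
open scoped ENNReal

namespace Pool.Agent.R305.MV

noncomputable section

/-- relation of `Th` and `D` -/
lemma norm_Th (x y : ℝ) : ‖Th (⟨x, y⟩ : ℂ)‖ = Real.exp (y ^ 2) * ‖D x (-2 * y)‖ := by
  rw [D_eq, norm_mul, Complex.norm_exp]
  have h1 : (-((-2 * y * x : ℝ) : ℂ) * I - (((-2 * y) ^ 2 / 4 : ℝ) : ℂ)).re = -y ^ 2 := by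
    simp only [Complex.sub_re, Complex.mul_re, Complex.neg_re, Complex.neg_im, Complex.ofReal_re,
      Complex.ofReal_im, Complex.I_re, Complex.I_im]
    ring
  have h2 : ((x : ℂ) - ((-2 * y / 2 : ℝ) : ℂ) * I) = (⟨x, y⟩ : ℂ) := by
    apply Complex.ext
    · simp
    · simp
      ring
  rw [h1, h2, ← mul_assoc, ← Real.exp_add]
  simp

/-- scaling of the integral -/
lemma scal {h : ℝ → ℝ≥0∞} (hh : Measurable h) :
    ∫⁻ y, h (-2 * y) = ENNReal.ofReal (1 / 2) * ∫⁻ t, h t := by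
  have h1 : ∫⁻ t, h t ∂(Measure.map (fun y : ℝ => -2 * y) volume) = ∫⁻ y, h (-2 * y) :=
    lintegral_map hh (by fun_prop)
  rw [← h1, Real.map_volume_mul_left (by norm_num : (-2 : ℝ) ≠ 0), lintegral_smul_measure,
    smul_eq_mul]
  congr 2
  rw [abs_inv]
  norm_num

/-- the power of the norm -/
def H (p x s : ℝ) : ℝ≥0∞ := ‖D x s‖ₑ ^ p

lemma measurable_H (p : ℝ) : Measurable fun z : ℝ × ℝ => H p z.1 z.2 := by
  unfold H
  exact (continuous_D.enorm.measurable).pow_const p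

lemma measurable_H_right (p x : ℝ) : Measurable fun s : ℝ => H p x s := by
  unfold H
  exact ((continuous_D_right x).enorm.measurable).pow_const p

/-- the rectangle -/
def S0 (a b : ℝ) : Set (ℝ × ℝ) := Icc a b ×ˢ Icc (-1) 1

lemma measurableSet_S0 (a b : ℝ) : MeasurableSet (S0 a b) := measurableSet_Icc.prod measurableSet_Icc

lemma toProd {f : ℝ × ℝ → ℝ≥0∞} (hf : Measurable f) :
    ∫⁻ z : ℂ, f (Complex.measurableEquivRealProd z) = ∫⁻ v : ℝ × ℝ, f v :=
  Complex.volume_preserving_equiv_real_prod.lintegral_comp hf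

/-- the rectangle -/
def R0 (u0 t0 : ℝ) : Set (ℝ × ℝ) :=
  Icc (u0 - 1) (u0 + 1) ×ˢ Icc (-t0 / 2 - 1 / 2) (-t0 / 2 + 1 / 2)

lemma measurableSet_R0 (u0 t0 : ℝ) : MeasurableSet (R0 u0 t0) :=
  measurableSet_Icc.prod measurableSet_Icc

lemma hm1 (p u0 t0 : ℝ) : Measurable (fun v : ℝ × ℝ =>
    (R0 u0 t0).indicator (fun v : ℝ × ℝ => H p v.1 (-2 * v.2)) v) := by
  refine Measurable.indicator ?_ (measurableSet_R0 u0 t0)
  have h1 : Continuous fun v : ℝ × ℝ => D v.1 (-2 * v.2) :=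
    continuous_D.comp (continuous_fst.prodMk (continuous_const.mul continuous_snd))
  exact (h1.enorm.measurable).pow_const p

lemma hm2 (p a b t0 : ℝ) : Measurable (fun v : ℝ × ℝ => (S0 a b).indicator
    (fun v : ℝ × ℝ => H p v.1 (t0 + v.2)) v) := by
  refine Measurable.indicator ?_ (measurableSet_S0 _ _)
  have h1 : Continuous fun v : ℝ × ℝ => D v.1 (t0 + v.2) :=
    continuous_D.comp (continuous_fst.prodMk (continuous_const.add continuous_snd))
  exact (h1.enorm.measurable).pow_const p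

lemma rect_int (p u0 t0 : ℝ) :
    ∫⁻ v : ℝ × ℝ, (R0 u0 t0).indicator (fun v : ℝ × ℝ => H p v.1 (-2 * v.2)) v =
    ENNReal.ofReal (1 / 2) * ∫⁻ v : ℝ × ℝ, (S0 (u0 - 1) (u0 + 1)).indicator
      (fun v : ℝ × ℝ => H p v.1 (t0 + v.2)) v := by
  rw [Measure.volume_eq_prod, lintegral_prod _ (hm1 p u0 t0).aemeasurable,
    lintegral_prod _ (hm2 p (u0 - 1) (u0 + 1) t0).aemeasurable,
    ← lintegral_const_mul' _ _ ENNReal.ofReal_ne_top]
  refine lintegral_congr fun x => ?_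
  by_cases hx : x ∈ Icc (u0 - 1) (u0 + 1)
  · have f1 : ∀ y : ℝ, (R0 u0 t0).indicator (fun v : ℝ × ℝ => H p v.1 (-2 * v.2)) (x, y) =
        (Icc (t0 - 1) (t0 + 1)).indicator (fun s => H p x s) (-2 * y) := by
      intro y
      by_cases hy : y ∈ Icc (-t0 / 2 - 1 / 2) (-t0 / 2 + 1 / 2)
      · have hmem : (x, y) ∈ R0 u0 t0 := ⟨hx, hy⟩
        have hmem2 : -2 * y ∈ Icc (t0 - 1) (t0 + 1) :=
          ⟨by linarith [hy.2], by linarith [hy.1]⟩
        rw [Set.indicator_of_mem hmem, Set.indicator_of_mem hmem2]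
      · have hmem : (x, y) ∉ R0 u0 t0 := fun h => hy h.2
        have hmem2 : -2 * y ∉ Icc (t0 - 1) (t0 + 1) := fun h =>
          hy ⟨by linarith [h.2], by linarith [h.1]⟩
        rw [Set.indicator_of_notMem hmem, Set.indicator_of_notMem hmem2]
    have f2 : ∀ r : ℝ, (S0 (u0 - 1) (u0 + 1)).indicator (fun v : ℝ × ℝ => H p v.1 (t0 + v.2)) (x, r) =
        (Icc (t0 - 1) (t0 + 1)).indicator (fun s => H p x s) (t0 + r) := by
      intro r
      by_cases hr : r ∈ Icc (-1 : ℝ) 1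
      · have hmem : (x, r) ∈ S0 (u0 - 1) (u0 + 1) := ⟨hx, hr⟩
        have hmem2 : t0 + r ∈ Icc (t0 - 1) (t0 + 1) :=
          ⟨by linarith [hr.1], by linarith [hr.2]⟩
        rw [Set.indicator_of_mem hmem, Set.indicator_of_mem hmem2]
      · have hmem : (x, r) ∉ S0 (u0 - 1) (u0 + 1) := fun h => hr h.2
        have hmem2 : t0 + r ∉ Icc (t0 - 1) (t0 + 1) := fun h =>
          hr ⟨by linarith [h.1], by linarith [h.2]⟩
        rw [Set.indicator_of_notMem hmem, Set.indicator_of_notMem hmem2]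
    simp_rw [f1, f2]
    rw [scal ((measurable_H_right p x).indicator measurableSet_Icc),
      lintegral_add_left_eq_self (fun s => (Icc (t0 - 1) (t0 + 1)).indicator (fun s => H p x s) s) t0]
  · have f1 : ∀ y : ℝ, (R0 u0 t0).indicator (fun v : ℝ × ℝ => H p v.1 (-2 * v.2)) (x, y) = 0 :=
      fun y => Set.indicator_of_notMem (fun h => hx h.1) _
    have f2 : ∀ r : ℝ, (S0 (u0 - 1) (u0 + 1)).indicator
        (fun v : ℝ × ℝ => H p v.1 (t0 + v.2)) (x, r) = 0 :=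
      fun y => Set.indicator_of_notMem (fun h => hx h.1) _
    simp_rw [f1, f2]
    simp

/-- the entire function for the sub-mean value inequality -/
def gg (t0 : ℝ) (z : ℂ) : ℂ := Th z * cexp (2 * I * ((-t0 / 2 : ℝ) : ℂ) * z + (((-t0 / 2) ^ 2 : ℝ) : ℂ))

lemma norm_gg (t0 x y : ℝ) : ‖gg t0 ⟨x, y⟩‖ = Real.exp ((y - -t0 / 2) ^ 2) * ‖D x (-2 * y)‖ := by
  unfold gg
  rw [norm_mul, norm_Th, Complex.norm_exp]
  have h1 : (2 * I * ((-t0 / 2 : ℝ) : ℂ) * (⟨x, y⟩ : ℂ) + (((-t0 / 2) ^ 2 : ℝ) : ℂ)).re =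
      -2 * (-t0 / 2) * y + (-t0 / 2) ^ 2 := by
    rw [Complex.add_re, Complex.ofReal_re]
    simp only [Complex.mul_re, Complex.mul_im, Complex.I_re, Complex.I_im, Complex.ofReal_re,
      Complex.ofReal_im, Complex.re_ofNat, Complex.im_ofNat]
    ring
  rw [h1]
  have h2 : Real.exp ((y - -t0 / 2) ^ 2) = Real.exp (y ^ 2) *
      Real.exp (-2 * (-t0 / 2) * y + (-t0 / 2) ^ 2) := by
    rw [← Real.exp_add]
    congr 1
    ring
  rw [h2]
  ring

lemma ball_int {p : ℝ} (hp : 0 < p) (u0 t0 : ℝ) :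
    ∫⁻ z in Metric.ball (⟨u0, -t0 / 2⟩ : ℂ) (1 / 2), ‖gg t0 z‖ₑ ^ p ≤
    ENNReal.ofReal (Real.exp (p / 4)) *
      ∫⁻ v : ℝ × ℝ, (R0 u0 t0).indicator (fun v : ℝ × ℝ => H p v.1 (-2 * v.2)) v := by
  rw [← toProd (hm1 p u0 t0), ← lintegral_const_mul' _ _ ENNReal.ofReal_ne_top,
    ← lintegral_indicator Metric.isOpen_ball.measurableSet]
  refine lintegral_mono fun z => ?_
  by_cases hz : z ∈ Metric.ball (⟨u0, -t0 / 2⟩ : ℂ) (1 / 2)
  · rw [Set.indicator_of_mem hz]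
    rw [Metric.mem_ball, dist_eq_norm] at hz
    have h1 := (Complex.abs_re_le_norm _).trans hz.le
    have h2 := (Complex.abs_im_le_norm _).trans hz.le
    rw [Complex.sub_re] at h1
    rw [Complex.sub_im] at h2
    simp only at h1 h2
    have h3 := abs_le.1 h1
    have h4 := abs_le.1 h2
    have hmem : Complex.measurableEquivRealProd z ∈ R0 u0 t0 := by
      refine ⟨⟨?_, ?_⟩, ⟨?_, ?_⟩⟩
      · show u0 - 1 ≤ z.re
        linarith [h3.1]
      · show z.re ≤ u0 + 1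
        linarith [h3.2]
      · show -t0 / 2 - 1 / 2 ≤ z.im
        linarith [h4.1]
      · show z.im ≤ -t0 / 2 + 1 / 2
        linarith [h4.2]
    rw [Set.indicator_of_mem hmem]
    show ‖gg t0 z‖ₑ ^ p ≤ ENNReal.ofReal (Real.exp (p / 4)) * H p z.re (-2 * z.im)
    unfold H
    rw [← ofReal_norm, ← ofReal_norm, ENNReal.ofReal_rpow_of_nonneg (norm_nonneg _) hp.le,
      ENNReal.ofReal_rpow_of_nonneg (norm_nonneg _) hp.le, ← ENNReal.ofReal_mul (Real.exp_pos _).le]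
    apply ENNReal.ofReal_le_ofReal
    have h5 : ‖gg t0 z‖ = Real.exp ((z.im - -t0 / 2) ^ 2) * ‖D z.re (-2 * z.im)‖ :=
      norm_gg t0 z.re z.im
    rw [h5, Real.mul_rpow (Real.exp_pos _).le (norm_nonneg _), ← Real.exp_mul]
    apply mul_le_mul_of_nonneg_right _ (by positivity)
    apply Real.exp_le_exp.2
    have h6 : (z.im - -t0 / 2) ^ 2 ≤ 1 / 4 := by
      rw [← sq_abs]
      have := abs_nonneg (z.im - -t0 / 2)
      nlinarith
    nlinarith
  · rw [Set.indicator_of_notMem hz]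
    exact zero_le

/-- **sub-mean value inequality** -/
lemma submean {p : ℝ} (hp : 0 < p) (u0 t0 : ℝ) : H p u0 t0 ≤
    ENNReal.ofReal (Real.exp (p / 4)) * ∫⁻ z in S0 (u0 - 1) (u0 + 1), H p z.1 (t0 + z.2) := by
  have hgd : Differentiable ℂ (gg t0) := by
    unfold gg
    exact differentiable_Th.mul (by fun_prop)
  have key := Pool.Agent.H402R2.SubMean.rpow_mul_le_lintegral (g := gg t0) (w := ⟨u0, -t0 / 2⟩)
    (ρ := 1 / 2) (p := p) (by norm_num) hp hgd.differentiableOn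
  have hw : ‖gg t0 ⟨u0, -t0 / 2⟩‖ = ‖D u0 t0‖ := by
    rw [norm_gg, sub_self]
    simp only [ne_eq, OfNat.ofNat_ne_zero, not_false_eq_true, zero_pow, Real.exp_zero, one_mul]
    congr 2
    ring
  rw [hw] at key
  have hl : ENNReal.ofReal (1 / 2) * H p u0 t0 ≤
      ENNReal.ofReal (‖D u0 t0‖ ^ p * (Real.pi * (1 / 2) ^ 2)) := by
    have h1 : H p u0 t0 = ENNReal.ofReal (‖D u0 t0‖ ^ p) := by
      unfold H
      rw [← ofReal_norm, ENNReal.ofReal_rpow_of_nonneg (norm_nonneg _) hp.le]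
    rw [h1, ← ENNReal.ofReal_mul (by norm_num)]
    apply ENNReal.ofReal_le_ofReal
    have h2 : 0 ≤ ‖D u0 t0‖ ^ p := by positivity
    have := Real.pi_gt_three
    nlinarith
  have hfin := hl.trans (key.trans (ball_int hp u0 t0))
  rw [rect_int, mul_left_comm] at hfin
  have h0 : ENNReal.ofReal (1 / 2) ≠ 0 := by simp
  rw [← lintegral_indicator (measurableSet_S0 _ _)]
  exact (ENNReal.mul_le_mul_iff_right h0 ENNReal.ofReal_ne_top).1 hfin

end

end Pool.Agent.R305.MV
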