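import Pool.Agent.R305.MV.H
set_option autoImplicit false
set_option maxHeartbeats 1000000

/-!
The moment bounds imply large value estimates, conclusion.
-/

open Complex Filter Topology MeasureTheory Set
open scoped ENNReal

namespace Pool.Agent.R305.MV

noncomputable section

/-- heights with a large value of length in `[j, j + 1]` -/
def LJ (j : ℕ) (T W : ℝ) : Set ℝ := {t : ℝ | t ∈ Icc 0 T ∧ ∃ u ∈ Icc (j : ℝ) (j + 1), W < ‖D u t‖}

lemma meas_HH (p : ℝ) : Measurable fun v : ℝ × (ℝ × ℝ) => H p v.2.1 (v.1 + v.2.2) := by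
  have h1 : Continuous fun v : ℝ × (ℝ × ℝ) => D v.2.1 (v.1 + v.2.2) :=
    continuous_D.comp ((continuous_fst.comp continuous_snd).prodMk
      (continuous_fst.add (continuous_snd.comp continuous_snd)))
  exact (h1.enorm.measurable).pow_const p

lemma shift_int (p x T : ℝ) {r : ℝ} (hr : r ∈ Icc (-1 : ℝ) 1) :
    ∫⁻ t in Icc 0 T, H p x (t + r) ≤ ∫⁻ s in Icc (-1) (T + 1), H p x s := by
  rw [← lintegral_indicator measurableSet_Icc, ← lintegral_indicator measurableSet_Icc,
    ← lintegral_add_right_eq_self (fun s => (Icc (-1) (T + 1)).indicator (fun s => H p x s) s) r]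
  refine lintegral_mono fun t => ?_
  by_cases ht : t ∈ Icc 0 T
  · have h2 : t + r ∈ Icc (-1) (T + 1) := ⟨by linarith [ht.1, hr.1], by linarith [ht.2, hr.2]⟩
    rw [Set.indicator_of_mem ht, Set.indicator_of_mem h2]
  · rw [Set.indicator_of_notMem ht]
    exact zero_le

lemma vol_S0 (j : ℕ) : volume (S0 ((j : ℝ) - 1) (j + 2)) = 6 := by
  unfold S0
  rw [Measure.volume_eq_prod, Measure.prod_prod, Real.volume_Icc, Real.volume_Icc,
    ← ENNReal.ofReal_mul (by linarith)]
  have : ((j : ℝ) + 2 - (j - 1)) * (1 - -1) = 6 := by ring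
  rw [this]
  norm_num

/-- **Chebyshev's inequality** -/
lemma cheb {p : ℝ} (hp : 0 < p) (j : ℕ) {T W : ℝ} (hW : 0 ≤ W) {B : ℝ≥0∞}
    (hB : ∀ x ∈ Icc ((j : ℝ) - 1) (j + 2), ∫⁻ s in Icc (-1) (T + 1), H p x s ≤ B) :
    ENNReal.ofReal (W ^ p) * volume (LJ j T W) ≤
      ENNReal.ofReal (Real.exp (p / 4)) * (B * 6) := by
  set Φ : ℝ → ℝ≥0∞ := fun t => ENNReal.ofReal (Real.exp (p / 4)) *
    ∫⁻ z in S0 ((j : ℝ) - 1) (j + 2), H p z.1 (t + z.2) with hΦ
  have hm : Measurable fun t => ∫⁻ z in S0 ((j : ℝ) - 1) (j + 2), H p z.1 (t + z.2) :=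
    Measurable.lintegral_prod_right' (f := fun v : ℝ × (ℝ × ℝ) => H p v.2.1 (v.1 + v.2.2)) (meas_HH p)
  have hΦm : Measurable Φ := hm.const_mul _
  have hset : MeasurableSet {t | ENNReal.ofReal (W ^ p) ≤ Φ t} := measurableSet_le measurable_const hΦm
  have h1 : volume (LJ j T W) ≤ (volume.restrict (Icc 0 T)) {t | ENNReal.ofReal (W ^ p) ≤ Φ t} := by
    rw [Measure.restrict_apply hset]
    refine measure_mono ?_
    rintro t ⟨ht, u, hu, hWu⟩
    refine ⟨?_, ht⟩
    have h2 : ENNReal.ofReal (W ^ p) ≤ H p u t := by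
      unfold H
      rw [← ofReal_norm, ENNReal.ofReal_rpow_of_nonneg (norm_nonneg _) hp.le]
      exact ENNReal.ofReal_le_ofReal (Real.rpow_le_rpow hW hWu.le hp.le)
    refine h2.trans ((submean hp u t).trans ?_)
    refine mul_le_mul_right ?_ _
    refine lintegral_mono_set ?_
    unfold S0
    refine Set.prod_mono ?_ le_rfl
    refine Icc_subset_Icc ?_ ?_
    · linarith [hu.1]
    · linarith [hu.2]
  calc ENNReal.ofReal (W ^ p) * volume (LJ j T W)
      ≤ ENNReal.ofReal (W ^ p) * (volume.restrict (Icc 0 T)) {t | ENNReal.ofReal (W ^ p) ≤ Φ t} :=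
        mul_le_mul_right h1 _
    _ ≤ ∫⁻ t in Icc 0 T, Φ t := mul_meas_ge_le_lintegral hΦm _
    _ = ENNReal.ofReal (Real.exp (p / 4)) *
        ∫⁻ t in Icc 0 T, ∫⁻ z in S0 ((j : ℝ) - 1) (j + 2), H p z.1 (t + z.2) := by
        rw [lintegral_const_mul _ hm]
    _ = ENNReal.ofReal (Real.exp (p / 4)) *
        ∫⁻ z in S0 ((j : ℝ) - 1) (j + 2), ∫⁻ t in Icc 0 T, H p z.1 (t + z.2) := by
        rw [lintegral_lintegral_swap (f := fun (t : ℝ) (z : ℝ × ℝ) => H p z.1 (t + z.2))
          (meas_HH p).aemeasurable]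
    _ ≤ ENNReal.ofReal (Real.exp (p / 4)) * ∫⁻ _ in S0 ((j : ℝ) - 1) (j + 2), B := by
        refine mul_le_mul_right ?_ _
        refine setLIntegral_mono measurable_const fun z hz => ?_
        exact (shift_int p z.1 T hz.2).trans (hB z.1 hz.1)
    _ = _ := by rw [setLIntegral_const, vol_S0]

lemma mom_lint {p : ℝ} (hp : 0 < p) (x : ℝ) {T : ℝ} (hT : 0 ≤ T) :
    ∫⁻ s in Icc (-1) (T + 1), H p x s ≤
      ENNReal.ofReal (2 * ∫ s in (0 : ℝ)..(T + 1), ‖D x s‖ ^ p) := by
  have hcont : Continuous fun s => ‖D x s‖ ^ p :=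
    (continuous_D_right x).norm.rpow_const fun _ => Or.inr hp.le
  have h1 : ∫⁻ s in Icc (-1) (T + 1), H p x s =
      ENNReal.ofReal (∫ s in Icc (-1) (T + 1), ‖D x s‖ ^ p) := by
    rw [ofReal_integral_eq_lintegral_ofReal hcont.integrableOn_Icc
      (Eventually.of_forall fun s => by positivity)]
    refine lintegral_congr fun s => ?_
    unfold H
    rw [← ofReal_norm, ENNReal.ofReal_rpow_of_nonneg (norm_nonneg _) hp.le]
  rw [h1]
  apply ENNReal.ofReal_le_ofReal
  rw [integral_Icc_eq_integral_Ioc, ← intervalIntegral.integral_of_le (by linarith),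
    ← intervalIntegral.integral_add_adjacent_intervals (b := 0) (hcont.intervalIntegrable _ _)
      (hcont.intervalIntegrable _ _)]
  have h2 : ∫ s in (-1 : ℝ)..0, ‖D x s‖ ^ p = ∫ s in (0 : ℝ)..1, ‖D x s‖ ^ p := by
    have := intervalIntegral.integral_comp_neg (a := (0 : ℝ)) (b := 1) (fun s => ‖D x s‖ ^ p)
    rw [neg_zero] at this
    rw [← this]
    refine intervalIntegral.integral_congr fun s _ => ?_
    rw [norm_D_neg]
  have h3 : ∫ s in (0 : ℝ)..1, ‖D x s‖ ^ p ≤ ∫ s in (0 : ℝ)..(T + 1), ‖D x s‖ ^ p := by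
    refine intervalIntegral.integral_mono_interval le_rfl (by norm_num) (by linarith)
      (Eventually.of_forall fun s => by positivity) (hcont.intervalIntegrable _ _)
  rw [h2]
  linarith

lemma log_add_one_le {T : ℝ} (hT : 1 ≤ T) : Real.log (T + 1) ≤ Real.log T + 1 := by
  have h1 : T + 1 ≤ Real.exp 1 * T := by
    have := Real.exp_one_gt_d9
    nlinarith
  calc Real.log (T + 1) ≤ Real.log (Real.exp 1 * T) := Real.log_le_log (by linarith) h1
    _ = Real.log T + 1 := by
        rw [Real.log_mul (Real.exp_pos _).ne' (by linarith), Real.log_exp]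
        ring

lemma ke1 {η L : ℝ} (h1 : 1 ≤ η) (h2 : 4 ≤ L) : 4 ≤ η * L := by nlinarith

lemma ke2 {η L u σ : ℝ} (h1 : u ≤ η * L) (h2 : 1 / 2 ≤ σ) (hu : 0 ≤ u) :
    3 / 2 * u ≤ η * L + σ * u := by nlinarith

lemma ke3 {η L j : ℝ} (h1 : η * L / 2 ≤ j - 1) (h2 : 4 ≤ L) (h : 0 < η) :
    (L + 1) * η ≤ 4 * (j - 1) := by nlinarith

theorem crit_to_largeB {c q₀ : ℝ} (hc2 : 2 ≤ c) (hq₀ : 0 < q₀)
    (h : ∀ q : ℝ, 0 < q → q < q₀ → Crit c q) : ∃ B : ℝ, 0 < B ∧ LargeB (dh c) B := by
  classical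
  have hc0 : 0 < c := by linarith
  set η : ℝ := 8 * c / q₀ + 1 with hη
  have hη1 : 1 ≤ η := by
    have : 0 < 8 * c / q₀ := by positivity
    linarith
  have hη0 : 0 < η := by linarith
  have hηq : 4 * c / η < q₀ / 2 := by
    rw [div_lt_iff₀ hη0, hη]
    have : q₀ / 2 * (8 * c / q₀ + 1) = 4 * c + q₀ / 2 := by field_simp; ring
    rw [this]
    linarith
  refine ⟨η + 2, by linarith, ?_⟩
  intro A ε hA hε
  set κ : ℝ := min (q₀ / 4) (ε / (A + 1)) with hκ
  have hκ0 : 0 < κ := lt_min (by positivity) (by positivity)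
  have hκA : κ * A ≤ ε := by
    have h1 : κ ≤ ε / (A + 1) := min_le_right _ _
    rw [le_div_iff₀ (by linarith)] at h1
    linarith
  have hκq : κ ≤ q₀ / 4 := min_le_left _ _
  set K : ℕ := ⌈4 * c / (η * κ)⌉₊ + 2 with hK
  have hK1 : 4 * c / (η * κ) + 2 ≤ K := by
    rw [hK]
    push_cast
    have := Nat.le_ceil (4 * c / (η * κ))
    linarith
  set ε1 : ℝ := ε / (4 * (A + 1)) with hε1
  have hε10 : 0 < ε1 := by positivity
  have hε1A : ε1 * A ≤ ε / 4 := by
    have : ε1 * (A + 1) = ε / 4 := by rw [hε1]; field_simp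
    linarith
  have hM : ∀ i : ℕ, ∃ C U : ℝ, κ * (i + 1) < q₀ → ∀ u : ℝ, U ≤ u →
      ∫ t in (0 : ℝ)..Real.exp (κ * (i + 1) * u / c), ‖D u t‖ ^ (κ * (i + 1)) ≤
        C * Real.exp ((κ * (i + 1) + ε1) * u) := by
    intro i
    by_cases hi : κ * (i + 1) < q₀
    · obtain ⟨C, U, hCU⟩ := h (κ * (i + 1)) (by positivity) hi ε1 hε10
      exact ⟨C, U, fun _ => hCU⟩
    · exact ⟨0, 0, fun hh => absurd hh hi⟩
  choose Cf Uf hf using hM
  set CC : ℝ := ∑ i ∈ Finset.range K, |Cf i| with hCC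
  set UU : ℝ := ∑ i ∈ Finset.range K, |Uf i| with hUU
  have hCC0 : 0 ≤ CC := Finset.sum_nonneg fun i _ => abs_nonneg _
  set C0 : ℝ := Real.exp ((3 / 2) ^ 2 / 4) * Z (3 / 2) with hC0
  obtain ⟨T1, hT13, hT1⟩ := ev_small one_pos (C0 + 4)
  obtain ⟨T2, -, hT2⟩ := ev_small (show 0 < η / 2 by positivity) UU
  obtain ⟨K0, hK0, hab⟩ := absorb (show 0 < ε / 4 by positivity)
  set C' : ℝ := 12 * CC * Real.exp (q₀ / 4 + 2 * q₀ + 2 * ε1 + c + q₀) with hC'
  have hC'0 : 0 ≤ C' := by positivity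
  refine ⟨(A + 1) * K0 * C', max T1 T2, ?_⟩
  intro T hT σ hσ hσ1
  have hTT1 : T1 ≤ T := (le_max_left _ _).trans hT
  have hTT2 : T2 ≤ T := (le_max_right _ _).trans hT
  have hT3 : 3 ≤ T := hT13.trans hTT1
  have hT0 : 0 < T := by linarith
  obtain ⟨hL1, hLC, -⟩ := hT1 T hTT1
  obtain ⟨-, hLU, -⟩ := hT2 T hTT2
  set L := Real.log T with hL
  have hL0 : 0 < L := by linarith
  have hC0nn : 0 ≤ C0 := by
    have := Z_nonneg (3 / 2)
    positivity
  have hL4 : 4 ≤ L := by linarith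
  have hC0L : C0 ≤ L := by linarith
  have hTL : ∀ x : ℝ, T ^ x = Real.exp (L * x) := fun x => by
    rw [Real.rpow_def_of_pos hT0]
  have hTe : Real.exp L = T := Real.exp_log hT0
  set J : Finset ℕ := (Finset.range (⌊A * L⌋₊ + 1)).filter (fun j : ℕ => η * L / 2 ≤ (j : ℝ) - 1)
    with hJ
  set W : ℕ → ℝ := fun j => T ^ (η + 2) * Real.exp (σ * j) with hW
  have hηL : 4 ≤ η * L := ke1 hη1 hL4
  have hsub : LV A (η + 2) σ T ⊆ ⋃ j ∈ J, LJ j T (W j) := by
    rintro t ⟨⟨ht0, htT⟩, u, hu0, huA, hu⟩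
    have hubig : η * L < u := by
      by_contra hcon
      push Not at hcon
      have h1 := norm_D_le (a := 3 / 2) (by norm_num) u t
      have h2 : Real.exp ((3 / 2) ^ 2 / 4 + 3 / 2 * u) * Z (3 / 2) ≤
          T ^ (η + 2) * Real.exp (σ * u) := by
        rw [Real.exp_add, hTL]
        have h3 : Real.exp (3 / 2 * u) ≤ Real.exp (η * L) * Real.exp (σ * u) := by
          rw [← Real.exp_add]
          exact Real.exp_le_exp.2 (ke2 hcon hσ hu0)
        have h4 : C0 ≤ Real.exp (2 * L) := hC0L.trans (by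
          have := Real.add_one_le_exp (2 * L)
          linarith)
        have hZ := Z_nonneg (3 / 2)
        calc Real.exp ((3 / 2) ^ 2 / 4) * Real.exp (3 / 2 * u) * Z (3 / 2) =
            C0 * Real.exp (3 / 2 * u) := by rw [hC0]; ring
          _ ≤ Real.exp (2 * L) * (Real.exp (η * L) * Real.exp (σ * u)) := by gcongr
          _ = Real.exp (L * (η + 2)) * Real.exp (σ * u) := by
              rw [← Real.exp_add, ← Real.exp_add, ← Real.exp_add]
              congr 1
              ring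
      linarith
    have hj1 : (⌊u⌋₊ : ℝ) ≤ u := Nat.floor_le hu0
    have hj2 : u < (⌊u⌋₊ : ℝ) + 1 := Nat.lt_floor_add_one u
    simp only [Set.mem_iUnion]
    refine ⟨⌊u⌋₊, ?_, ⟨ht0, htT⟩, u, ⟨hj1, hj2.le⟩, ?_⟩
    · rw [hJ, Finset.mem_filter, Finset.mem_range]
      refine ⟨Nat.lt_succ_of_le (Nat.floor_le_floor huA), ?_⟩
      linarith
    · refine lt_of_le_of_lt ?_ hu
      simp only [hW]
      have : Real.exp (σ * ⌊u⌋₊) ≤ Real.exp (σ * u) := by
        apply Real.exp_le_exp.2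
        exact mul_le_mul_of_nonneg_left hj1 (by linarith)
      gcongr
  have hLJtop : ∀ j, volume (LJ j T (W j)) < ⊤ := fun j =>
    lt_of_le_of_lt (measure_mono (fun t ht => ht.1)) (by
      rw [Real.volume_Icc]; exact ENNReal.ofReal_lt_top)
  have hone : ∀ j ∈ J, (volume (LJ j T (W j))).toReal ≤
      C' * Real.exp (L * (dh c σ + (ε / 4 + ε / 2))) := by
    intro j hj
    rw [hJ, Finset.mem_filter, Finset.mem_range] at hj
    obtain ⟨hj1, hj2⟩ := hj
    have hjA : (j : ℝ) ≤ A * L := by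
      have : j ≤ ⌊A * L⌋₊ := by omega
      exact (Nat.le_floor_iff (by positivity)).1 this
    have hj0 : 2 ≤ (j : ℝ) - 1 := by linarith
    have hjp : 0 < (j : ℝ) - 1 := by linarith
    -- the exponent
    set i' : ℕ := ⌈c * (L + 1) / (((j : ℝ) - 1) * κ)⌉₊ with hi'
    have hi'0 : 0 < i' := Nat.ceil_pos.2 (by positivity)
    have hi1 : c * (L + 1) / (((j : ℝ) - 1) * κ) ≤ i' := Nat.le_ceil _
    have hi2 : (i' : ℝ) < c * (L + 1) / (((j : ℝ) - 1) * κ) + 1 :=
      Nat.ceil_lt_add_one (by positivity)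
    obtain ⟨i, hi⟩ : ∃ i : ℕ, i' = i + 1 := ⟨i' - 1, by omega⟩
    set p : ℝ := κ * (i + 1) with hp
    have hp0 : 0 < p := by positivity
    have hpi' : p = κ * i' := by rw [hp, hi]; push_cast; ring
    have hpj1 : c * (L + 1) ≤ p * (j - 1) := by
      rw [div_le_iff₀ (by positivity)] at hi1
      rw [hpi']
      linarith
    have hpj2 : p * (j - 1) ≤ c * (L + 1) + κ * (j - 1) := by
      rw [← sub_lt_iff_lt_add, lt_div_iff₀ (by positivity)] at hi2
      rw [hpi']
      linarith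
    have hquo : c * (L + 1) / (((j : ℝ) - 1) * κ) ≤ 4 * c / (η * κ) := by
      rw [div_le_div_iff₀ (by positivity) (by positivity)]
      have h1 : (L + 1) * η ≤ 4 * ((j : ℝ) - 1) := ke3 hj2 hL4 hη0
      have h2 : c * κ * ((L + 1) * η) ≤ c * κ * (4 * ((j : ℝ) - 1)) :=
        mul_le_mul_of_nonneg_left h1 (by positivity)
      linarith
    have hiK : i < K := by
      have h2 : (i' : ℝ) < K := by linarith
      have h3 : i' < K := by exact_mod_cast h2
      omega
    have hpq : p < q₀ := by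
      have h1 : κ * (4 * c / (η * κ)) = 4 * c / η := by field_simp
      have h2 : p < κ * (4 * c / (η * κ) + 1) := by
        rw [hpi']
        exact mul_lt_mul_of_pos_left (by linarith) hκ0
      linarith
    have hCi : Cf i ≤ CC := (le_abs_self _).trans
      (Finset.single_le_sum (f := fun i => |Cf i|) (fun i _ => abs_nonneg _) (Finset.mem_range.2 hiK))
    have hUi : Uf i ≤ UU := (le_abs_self _).trans
      (Finset.single_le_sum (f := fun i => |Uf i|) (fun i _ => abs_nonneg _) (Finset.mem_range.2 hiK))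
    set Q : ℝ := CC * Real.exp ((p + ε1) * (j + 2)) with hQ
    have hQ0 : 0 ≤ Q := by positivity
    have hB : ∀ x ∈ Icc ((j : ℝ) - 1) (j + 2), ∫⁻ s in Icc (-1) (T + 1), H p x s ≤
        ENNReal.ofReal (2 * Q) := by
      intro x hx
      refine (mom_lint hp0 x hT0.le).trans (ENNReal.ofReal_le_ofReal ?_)
      have h1 := hf i hpq x (by linarith [hx.1])
      rw [← hp] at h1
      have h2 : T + 1 ≤ Real.exp (p * x / c) := by
        rw [← Real.log_le_iff_le_exp (by linarith)]
        refine (log_add_one_le (by linarith)).trans ?_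
        rw [← hL, le_div_iff₀ hc0]
        have h3 : p * (j - 1) ≤ p * x := mul_le_mul_of_nonneg_left hx.1 hp0.le
        linarith
      have hcont : Continuous fun s => ‖D x s‖ ^ p :=
        (continuous_D_right x).norm.rpow_const fun _ => Or.inr hp0.le
      have h4 : ∫ s in (0 : ℝ)..(T + 1), ‖D x s‖ ^ p ≤
          ∫ s in (0 : ℝ)..Real.exp (p * x / c), ‖D x s‖ ^ p :=
        intervalIntegral.integral_mono_interval le_rfl (by linarith) h2
          (Eventually.of_forall fun s => by positivity) (hcont.intervalIntegrable _ _)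
      have h5 : Cf i * Real.exp ((p + ε1) * x) ≤ Q := by
        rw [hQ]
        apply mul_le_mul hCi _ (Real.exp_pos _).le hCC0
        apply Real.exp_le_exp.2
        exact mul_le_mul_of_nonneg_left hx.2 (by linarith)
      linarith
    have hWj0 : 0 ≤ W j := by simp only [hW]; positivity
    have key := cheb hp0 j hWj0 hB
    -- reals
    have hreal : (W j) ^ p * (volume (LJ j T (W j))).toReal ≤
        Real.exp (p / 4) * (2 * Q * 6) := by
      have h1 := ENNReal.toReal_mono (by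
        refine ENNReal.mul_ne_top ENNReal.ofReal_ne_top
          (ENNReal.mul_ne_top ENNReal.ofReal_ne_top (by norm_num))) key
      rw [ENNReal.toReal_mul, ENNReal.toReal_mul, ENNReal.toReal_mul,
        ENNReal.toReal_ofReal (by positivity), ENNReal.toReal_ofReal (by positivity),
        ENNReal.toReal_ofReal (by positivity)] at h1
      simpa using h1
    have hWlow : Real.exp (σ * (p * j)) ≤ (W j) ^ p := by
      simp only [hW]
      rw [Real.mul_rpow (by positivity) (Real.exp_pos _).le, ← Real.exp_mul]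
      have h1 : 1 ≤ (T ^ (η + 2)) ^ p :=
        Real.one_le_rpow (Real.one_le_rpow (by linarith) (by linarith)) hp0.le
      have h2 : Real.exp (σ * (p * j)) = Real.exp (σ * j * p) := by
        congr 1
        ring
      rw [h2]
      exact le_mul_of_one_le_left (Real.exp_pos _).le h1
    have hv0 : 0 ≤ (volume (LJ j T (W j))).toReal := ENNReal.toReal_nonneg
    have h1 : Real.exp (σ * (p * j)) * (volume (LJ j T (W j))).toReal ≤
        Real.exp (p / 4) * (2 * Q * 6) :=
      (mul_le_mul_of_nonneg_right hWlow hv0).trans hreal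
    have h2 : (volume (LJ j T (W j))).toReal ≤
        Real.exp (-(σ * (p * j))) * (Real.exp (p / 4) * (2 * Q * 6)) := by
      have h3 := mul_le_mul_of_nonneg_left h1 (Real.exp_pos (-(σ * (p * j)))).le
      rw [← mul_assoc, ← Real.exp_add, neg_add_cancel, Real.exp_zero, one_mul] at h3
      exact h3
    refine h2.trans ?_
    have h3 : Real.exp (-(σ * (p * j))) * (Real.exp (p / 4) * Real.exp ((p + ε1) * (j + 2))) ≤
        Real.exp (q₀ / 4 + 2 * q₀ + 2 * ε1 + c + q₀) *
          Real.exp (L * (dh c σ + (ε / 4 + ε / 2))) := by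
      rw [← Real.exp_add, ← Real.exp_add, ← Real.exp_add]
      apply Real.exp_le_exp.2
      unfold dh
      have g0 : p * j ≤ c * L + c + κ * (A * L) + q₀ := by
        have : κ * ((j : ℝ) - 1) ≤ κ * (A * L) := by gcongr; linarith
        linarith
      have g1 : p * j * (1 - σ) ≤ (c * L + c + κ * (A * L) + q₀) * (1 - σ) :=
        mul_le_mul_of_nonneg_right g0 (by linarith)
      have g2 : κ * (A * L) * (1 - σ) ≤ κ * (A * L) * (1 / 2) := by
        apply mul_le_mul_of_nonneg_left _ (by positivity)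
        linarith
      have g3 : κ * A * L ≤ ε * L := by gcongr
      have g4 : (c + q₀) * (1 - σ) ≤ (c + q₀) * 1 := by
        apply mul_le_mul_of_nonneg_left _ (by positivity)
        linarith
      have g5 : ε1 * j ≤ ε1 * (A * L) := by gcongr
      have g6 : ε1 * A * L ≤ ε / 4 * L := by gcongr
      linarith
    calc Real.exp (-(σ * (p * j))) * (Real.exp (p / 4) * (2 * Q * 6)) =
        12 * CC * (Real.exp (-(σ * (p * j))) *
          (Real.exp (p / 4) * Real.exp ((p + ε1) * (j + 2)))) := by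
          rw [hQ]; ring
      _ ≤ 12 * CC * (Real.exp (q₀ / 4 + 2 * q₀ + 2 * ε1 + c + q₀) *
          Real.exp (L * (dh c σ + (ε / 4 + ε / 2)))) := by gcongr
      _ = _ := by rw [hC']; ring
  have hvol : (volume (LV A (η + 2) σ T)).toReal ≤ ∑ j ∈ J, (volume (LJ j T (W j))).toReal := by
    have h1 : volume (LV A (η + 2) σ T) ≤ ∑ j ∈ J, volume (LJ j T (W j)) :=
      (measure_mono hsub).trans (measure_biUnion_finset_le J _)
    have h2 : ∑ j ∈ J, volume (LJ j T (W j)) ≠ ⊤ :=
      (ENNReal.sum_lt_top.2 fun j _ => hLJtop j).ne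
    have h3 := ENNReal.toReal_mono h2 h1
    rwa [ENNReal.toReal_sum fun j _ => (hLJtop j).ne] at h3
  have hcard : (J.card : ℝ) ≤ (A + 1) * (K0 * Real.exp (L * (ε / 4))) := by
    have h1 : J.card ≤ ⌊A * L⌋₊ + 1 := by
      refine (Finset.card_filter_le _ _).trans ?_
      rw [Finset.card_range]
    have h2 : (J.card : ℝ) ≤ A * L + 1 := by
      have h3 : (J.card : ℝ) ≤ ⌊A * L⌋₊ + 1 := by exact_mod_cast h1
      have h4 := Nat.floor_le (show 0 ≤ A * L by positivity)
      linarith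
    have h5 := hab T (by linarith)
    rw [hTL] at h5
    calc (J.card : ℝ) ≤ A * L + 1 := h2
      _ ≤ (A + 1) * (L + 10) := by linarith
      _ ≤ _ := by gcongr
  calc (volume (LV A (η + 2) σ T)).toReal ≤ ∑ j ∈ J, (volume (LJ j T (W j))).toReal := hvol
    _ ≤ ∑ j ∈ J, C' * Real.exp (L * (dh c σ + (ε / 4 + ε / 2))) := Finset.sum_le_sum hone
    _ = (J.card : ℝ) * (C' * Real.exp (L * (dh c σ + (ε / 4 + ε / 2)))) := by
        rw [Finset.sum_const, nsmul_eq_mul]
    _ ≤ ((A + 1) * (K0 * Real.exp (L * (ε / 4)))) *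
        (C' * Real.exp (L * (dh c σ + (ε / 4 + ε / 2)))) := by gcongr
    _ = (A + 1) * K0 * C' * (Real.exp (L * (ε / 4)) * Real.exp (L * (dh c σ + (ε / 4 + ε / 2)))) := by
        ring
    _ = _ := by
        rw [← Real.exp_add, hTL]
        congr 2
        ring

end

end Pool.Agent.R305.MV
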